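import Mathlib

/-!
# Arbitrary sets, blueprint part B-5: the linear profile (pure number part)

`f j = - log (rad j p)`, `g z = - log (hull length / lam)`, `w = log r`. The inequalities (HU) and
(HL) give that the growth of `f` is translation invariant, hence linear.
-/

set_option autoImplicit false

namespace Pool.Agent.Work.MP_e17eac_co.BB

/-- The inequalities of the profile: (G), (L7), (HU), (HL) for a set `S` of levels in `[X0, X1]`
with gaps at most `l`. -/
structure Prof (w : ℝ) (S : Set ℕ) (X0 X1 m l k5 k6 k8 kb kt kz : ℕ) (f g : ℕ → ℝ) : Prop where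
  w_pos : 0 < w
  fmono : ∀ i j, 4 * X0 ≤ i → i ≤ j → j ≤ 4 * X1 → f i ≤ f j
  gmono : ∀ i j, 1 ≤ i → i ≤ j → j ≤ m → g i ≤ g j
  low : ∀ z, 1 ≤ z → z ≤ m → (4 * (z : ℝ) - 1) * w ≤ g z
  grow : ∀ j, 4 * X0 ≤ j → j + k6 ≤ 4 * X1 → f j + 2 * w ≤ f (j + k6)
  gap : ∀ v, X0 ≤ v → v + l ≤ X1 → ∃ x ∈ S, v ≤ x ∧ x ≤ v + l
  hu : ∀ x ∈ S, ∀ y, X0 + k6 ≤ y → y < x → x ≤ 2 * y → x + kt ≤ X1 → 2 * (x - y) + kz ≤ x →
    f (4 * x - 1) ≤ f (4 * y + kb) + g (2 * (x - y) + kz) + w
  hl : ∀ x ∈ S, ∀ x' ∈ S, ∀ y, X0 + k6 ≤ y → y < x → x ≤ 2 * y → x + kt ≤ X1 →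
    4 * x' + k5 ≤ 4 * x - 1 → 4 * (x - x') + k8 < 2 * (x - y) →
    2 * (x - y) - (4 * (x - x') + k8) ≤ x' →
    f (4 * y - 1) + g (2 * (x - y) - (4 * (x - x') + k8)) ≤ f (4 * x - 1) + w

/-- The unit of the profile. -/
def unit (l k5 k6 k8 kb kz : ℕ) : ℕ := 6 * l + 4 * k5 + 4 * k6 + k8 + 3 * kb + kz + 10

section

variable {w : ℝ} {S : Set ℕ} {X0 X1 m l k5 k6 k8 kb kt kz : ℕ} {f g : ℕ → ℝ}

/-- Claim (a), left half. -/
theorem prof_left (h : Prof w S X0 X1 m l k5 k6 k8 kb kt kz f g) (k I : ℕ)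
    (hk : unit l k5 k6 k8 kb kz ≤ k) (h0 : 2 * (k * I) ≤ X0) (h1 : X0 + (k * I + 2 * k) + kt ≤ X1)
    (hm : X1 ≤ m) (i d : ℕ) (hi : i + d ≤ I) :
    f (4 * (X0 + k + k * (i + d))) - f (4 * (X0 + k + k * i)) ≤ g (2 * k * d + k) := by
  unfold unit at hk
  have hkI : k * (i + d) ≤ k * I := Nat.mul_le_mul_left _ hi
  have hkd : k * (i + d) = k * i + k * d := by ring
  rcases Nat.eq_zero_or_pos d with hd | hd
  · subst hd
    have := h.low k (by omega) (by nlinarith)
    simp only [Nat.add_zero, Nat.mul_zero, Nat.zero_add, sub_self]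
    have hk1 : (1 : ℝ) ≤ k := by exact_mod_cast (by omega : 1 ≤ k)
    have := h.w_pos
    nlinarith
  · have hkd1 : k ≤ k * d := Nat.le_mul_of_pos_right _ hd
    obtain ⟨x, hxS, hx1, hx2⟩ := h.gap (X0 + k + k * (i + d) + 1) (by omega) (by omega)
    obtain ⟨y, hy⟩ : ∃ y, y + (kb + k6) = X0 + k + k * i := ⟨X0 + k + k * i - (kb + k6), by omega⟩
    have hu := h.hu x hxS y (by omega) (by omega) (by omega) (by omega) (by omega)
    have e1 : f (4 * (X0 + k + k * (i + d))) ≤ f (4 * x - 1) :=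
      h.fmono _ _ (by omega) (by omega) (by omega)
    have e2 := h.grow (4 * y + kb) (by omega) (by omega)
    have e3 : f (4 * y + kb + k6) ≤ f (4 * (X0 + k + k * i)) :=
      h.fmono _ _ (by omega) (by omega) (by omega)
    have e5 : 2 * k * d = 2 * (k * d) := by ring
    have e4 : g (2 * (x - y) + kz) ≤ g (2 * k * d + k) := h.gmono _ _ (by omega) (by omega) (by omega)
    have := h.w_pos
    linarith

/-- Claim (a), right half. -/
theorem prof_right (h : Prof w S X0 X1 m l k5 k6 k8 kb kt kz f g) (k I : ℕ)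
    (hk : unit l k5 k6 k8 kb kz ≤ k) (h0 : 2 * (k * I) ≤ X0) (h1 : X0 + (k * I + 2 * k) + kt ≤ X1)
    (hm : X1 ≤ m) (i d : ℕ) (hi : i + d + 1 ≤ I) :
    g (2 * k * d + k) ≤ f (4 * (X0 + k + k * (i + d + 1))) - f (4 * (X0 + k + k * i)) := by
  unfold unit at hk
  have hkI : k * (i + d + 1) ≤ k * I := Nat.mul_le_mul_left _ hi
  have hkd : k * (i + d + 1) = k * i + k * d + k := by ring
  obtain ⟨v, hv⟩ : ∃ v, v + l = X0 + k + k * (i + d + 1) := ⟨X0 + k + k * (i + d + 1) - l, by omega⟩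
  obtain ⟨x, hxS, hx1, hx2⟩ := h.gap v (by omega) (by omega)
  obtain ⟨v', hv'⟩ : ∃ v', v' + (k5 + 1 + l) = x := ⟨x - (k5 + 1 + l), by omega⟩
  obtain ⟨x', hxS', hx1', hx2'⟩ := h.gap v' (by omega) (by omega)
  have hl := h.hl x hxS x' hxS' (X0 + k + k * i + k6 + 1) (by omega) (by omega) (by omega)
    (by omega) (by omega) (by omega) (by omega)
  have e1 : f (4 * x - 1) ≤ f (4 * (X0 + k + k * (i + d + 1))) :=
    h.fmono _ _ (by omega) (by omega) (by omega)
  have e2 := h.grow (4 * (X0 + k + k * i)) (by omega) (by omega)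
  have e3 : f (4 * (X0 + k + k * i) + k6) ≤ f (4 * (X0 + k + k * i + k6 + 1) - 1) :=
    h.fmono _ _ (by omega) (by omega) (by omega)
  have e5 : 2 * k * d = 2 * (k * d) := by ring
  have e4 : g (2 * k * d + k) ≤
      g (2 * (x - (X0 + k + k * i + k6 + 1)) - (4 * (x - x') + k8)) :=
    h.gmono _ _ (by omega) (by omega) (by omega)
  have := h.w_pos
  linarith

end

/-! ### Claim (b): a translation invariant growth is linear -/

section

variable {u : ℕ → ℝ} {I dm : ℕ}

theorem blocks_lower (e : ℕ) (s : ℝ) (h : ∀ i, i + e ≤ I → s ≤ u (i + e) - u i) :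
    ∀ q, q * e ≤ I → q * s ≤ u (q * e) - u 0
  | 0, _ => by simp
  | q + 1, hq => by
      have h1 : q * e + e ≤ I := by rw [Nat.succ_mul] at hq; exact hq
      have ih := blocks_lower e s h q (by omega)
      have h2 := h (q * e) h1
      rw [Nat.succ_mul]
      push_cast
      linarith

theorem blocks_upper (hmono : ∀ i j, i ≤ j → j ≤ I → u i ≤ u j) (e : ℕ) (s : ℝ)
    (heI : e ≤ I) (h : ∀ i, i + e ≤ I → u (i + e) - u i ≤ s) :
    ∀ q, u (min (q * e) I) - u 0 ≤ q * s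
  | 0 => by simp
  | q + 1 => by
      have ih := blocks_upper hmono e s heI h q
      have key : u (min ((q + 1) * e) I) - u (min (q * e) I) ≤ s := by
        by_cases h1 : q * e + e ≤ I
        · have e1 : min ((q + 1) * e) I = q * e + e := by rw [Nat.succ_mul]; omega
          have e2 : min (q * e) I = q * e := by omega
          rw [e1, e2]
          exact h _ h1
        · have e1 : min ((q + 1) * e) I = I := by rw [Nat.succ_mul]; omega
          rw [e1]
          have h2 := h (I - e) (by omega)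
          have e3 : I - e + e = I := by omega
          rw [e3] at h2
          have h3 : u (I - e) ≤ u (min (q * e) I) := hmono _ _ (by omega) (by omega)
          linarith
      push_cast
      linarith

/-- Claim (b). -/
theorem lin_growth (hI : (dm + 2) ^ 2 ≤ I) (hmono : ∀ i j, i ≤ j → j ≤ I → u i ≤ u j)
    (ha : ∀ d i i', d ≤ dm → i + d ≤ I → i' + d + 1 ≤ I →
      u (i + d) - u i ≤ u (i' + d + 1) - u i') (d i : ℕ) (hd : d ≤ dm) (hi : i + d ≤ I) :
    (u I - u 0) / I * ((d : ℝ) - 2) ≤ u (i + d) - u i ∧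
      u (i + d) - u i ≤ (u I - u 0) / I * ((d : ℝ) + 2) := by
  have hIpos : 0 < I := lt_of_lt_of_le (by positivity) hI
  have hIR : (0 : ℝ) < I := by exact_mod_cast hIpos
  set θ := (u I - u 0) / I with hθ
  have hθI : θ * I = u I - u 0 := by rw [hθ]; field_simp
  have hU0 : 0 ≤ u I - u 0 := by have := hmono 0 I (by omega) le_rfl; linarith
  have hθ0 : 0 ≤ θ := by rw [hθ]; positivity
  have hs0 : 0 ≤ u (i + d) - u i := by have := hmono i (i + d) (by omega) hi; linarith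
  have hIsq : ((dm : ℝ) + 2) ^ 2 ≤ I := by exact_mod_cast hI
  have hdm : (d : ℝ) ≤ dm := by exact_mod_cast hd
  have hd0 : (0 : ℝ) ≤ d := by positivity
  constructor
  · rcases Nat.lt_or_ge d 3 with hd3 | hd3
    · have : (d : ℝ) - 2 ≤ 0 := by
        have : (d : ℝ) ≤ 2 := by exact_mod_cast (by omega : d ≤ 2)
        linarith
      nlinarith
    · obtain ⟨e, rfl⟩ : ∃ e, d = e + 1 := ⟨d - 1, by omega⟩
      have he1 : 1 ≤ e := by omega
      have heI : e ≤ I := by nlinarith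
      have h1 := blocks_upper hmono e (u (i + (e + 1)) - u i) heI (fun i' hi' =>
        ha e i' i (by omega) hi' (by omega)) ((I + e - 1) / e)
      have h2 : I ≤ (I + e - 1) / e * e := by
        have := Nat.div_add_mod (I + e - 1) e
        have h3 := Nat.mod_lt (I + e - 1) (by omega : 0 < e)
        rw [mul_comm] at this
        omega
      have h3 : (I + e - 1) / e * e ≤ I + e - 1 := Nat.div_mul_le_self _ _
      rw [Nat.min_eq_right h2] at h1
      have h4 : (((I + e - 1) / e : ℕ) : ℝ) * e ≤ I + e - 1 := by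
        have : (((I + e - 1) / e * e : ℕ) : ℝ) ≤ ((I + e - 1 : ℕ) : ℝ) := by exact_mod_cast h3
        rw [Nat.cast_sub (by omega)] at this
        push_cast at this
        exact this
      have he0 : (1 : ℝ) ≤ e := by exact_mod_cast he1
      have h5 : θ * I * e ≤ (I + e - 1) * (u (i + (e + 1)) - u i) := by
        rw [hθI]
        calc (u I - u 0) * e ≤ ((((I + e - 1) / e : ℕ) : ℝ) * (u (i + (e + 1)) - u i)) * e := by
              gcongr
          _ = ((((I + e - 1) / e : ℕ) : ℝ) * e) * (u (i + (e + 1)) - u i) := by ring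
          _ ≤ _ := by gcongr
      push_cast at hdm ⊢
      have h6 : ((e : ℝ) - 1) * (I + e - 1) ≤ I * e := by nlinarith
      have h7 : θ * ((e : ℝ) - 1) * (I + e - 1) ≤ (I + e - 1) * (u (i + (e + 1)) - u i) := by
        calc θ * ((e : ℝ) - 1) * (I + e - 1) = θ * (((e : ℝ) - 1) * (I + e - 1)) := by ring
          _ ≤ θ * (I * e) := by gcongr
          _ = θ * I * e := by ring
          _ ≤ _ := h5
      have h8 : (0 : ℝ) < I + e - 1 := by linarith
      have h9 : (I + (e : ℝ) - 1) * (θ * ((e : ℝ) - 1)) ≤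
          (I + e - 1) * (u (i + (e + 1)) - u i) := by linarith
      have h10 := le_of_mul_le_mul_left h9 h8
      have h11 : θ * ((e : ℝ) + 1 - 2) = θ * ((e : ℝ) - 1) := by ring
      rw [h11]
      exact h10
  · have hdI : d + 1 ≤ I := by nlinarith
    have h1 := blocks_lower (I := I) (d + 1) (u (i + d) - u i) (fun i' hi' => ha d i i' hd hi
      (by omega)) (I / (d + 1)) (Nat.div_mul_le_self _ _)
    have h2 : u (I / (d + 1) * (d + 1)) ≤ u I := hmono _ _ (Nat.div_mul_le_self _ _) le_rfl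
    have h3 : I ≤ I / (d + 1) * (d + 1) + d := by
      have := Nat.div_add_mod I (d + 1)
      have h3 := Nat.mod_lt I (by omega : 0 < d + 1)
      rw [mul_comm] at this
      omega
    have h4 : (I : ℝ) - d ≤ ((I / (d + 1) : ℕ) : ℝ) * (d + 1) := by
      have : (I : ℝ) ≤ ((I / (d + 1) * (d + 1) + d : ℕ) : ℝ) := by exact_mod_cast h3
      push_cast at this
      linarith
    have h5 : ((I : ℝ) - d) * (u (i + d) - u i) ≤ (d + 1) * (θ * I) := by
      rw [hθI]
      calc ((I : ℝ) - d) * (u (i + d) - u i)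
          ≤ (((I / (d + 1) : ℕ) : ℝ) * (d + 1)) * (u (i + d) - u i) := by gcongr
        _ = (d + 1) * (((I / (d + 1) : ℕ) : ℝ) * (u (i + d) - u i)) := by ring
        _ ≤ (d + 1) * (u I - u 0) := by gcongr; linarith
    have h6 : ((d : ℝ) + 1) * I ≤ (d + 2) * (I - d) := by nlinarith
    have h7 : (0 : ℝ) < I - d := by nlinarith
    have h8 : ((I : ℝ) - d) * (u (i + d) - u i) ≤ (I - d) * (θ * (d + 2)) := by
      calc ((I : ℝ) - d) * (u (i + d) - u i) ≤ (d + 1) * (θ * I) := h5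
        _ = θ * (((d : ℝ) + 1) * I) := by ring
        _ ≤ θ * ((d + 2) * (I - d)) := by gcongr
        _ = _ := by ring
    exact le_of_mul_le_mul_left h8 h7

end

/-! ### The profile -/

section

variable {w : ℝ} {S : Set ℕ} {X0 X1 m l k5 k6 k8 kb kt kz : ℕ} {f g : ℕ → ℝ}

/-- **Profile**. With the unit `k`, `u i = f (4 (X0 + k + k i))`, `0 ≤ i ≤ I`:
(a) `u (i+d) - u i ≤ g (2kd+k) ≤ u (i'+d+1) - u i'`; (b) `θ (d-2) ≤ u (i+d) - u i ≤ θ (d+2)` for
`d ≤ dm`; (c) `4 k w ≤ θ`. -/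
theorem profile (h : Prof w S X0 X1 m l k5 k6 k8 kb kt kz f g) (k dm I : ℕ)
    (hk : unit l k5 k6 k8 kb kz ≤ k) (hdm : 4 ≤ dm) (hI : (dm + 2) ^ 2 ≤ I)
    (h0 : 2 * (k * I) ≤ X0) (h1 : X0 + (k * I + 2 * k) + kt ≤ X1) (hm : X1 ≤ m) (u : ℕ → ℝ)
    (hu : ∀ i, u i = f (4 * (X0 + k + k * i))) :
    (∀ i d, i + d ≤ I → u (i + d) - u i ≤ g (2 * k * d + k)) ∧
    (∀ i d, i + d + 1 ≤ I → g (2 * k * d + k) ≤ u (i + d + 1) - u i) ∧
    (∀ i d, d ≤ dm → i + d ≤ I → (u I - u 0) / I * ((d : ℝ) - 2) ≤ u (i + d) - u i ∧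
      u (i + d) - u i ≤ (u I - u 0) / I * ((d : ℝ) + 2)) ∧
    4 * (k : ℝ) * w ≤ (u I - u 0) / I := by
  have hk' := hk
  unfold unit at hk'
  have A1 : ∀ i d, i + d ≤ I → u (i + d) - u i ≤ g (2 * k * d + k) := by
    intro i d hi
    rw [hu, hu]
    exact prof_left h k I hk h0 h1 hm i d hi
  have A2 : ∀ i d, i + d + 1 ≤ I → g (2 * k * d + k) ≤ u (i + d + 1) - u i := by
    intro i d hi
    rw [hu, hu]
    exact prof_right h k I hk h0 h1 hm i d hi
  have hmono : ∀ i j, i ≤ j → j ≤ I → u i ≤ u j := by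
    intro i j hij hj
    rw [hu, hu]
    have e1 : k * i ≤ k * j := Nat.mul_le_mul_left _ hij
    have e2 : k * j ≤ k * I := Nat.mul_le_mul_left _ hj
    exact h.fmono _ _ (by omega) (by omega) (by omega)
  have A3 : ∀ i d, d ≤ dm → i + d ≤ I → (u I - u 0) / I * ((d : ℝ) - 2) ≤ u (i + d) - u i ∧
      u (i + d) - u i ≤ (u I - u 0) / I * ((d : ℝ) + 2) := by
    intro i d hd hi
    exact lin_growth hI hmono (fun d i i' _ h2 h3 => (A1 i d h2).trans (A2 i' d h3)) d i hd hi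
  refine ⟨A1, A2, A3, ?_⟩
  have hI4 : 4 ≤ I := by nlinarith
  have b1 := A2 0 3 (by omega)
  have b2 := (A3 0 4 hdm (by omega)).2
  have hkI : k * 7 ≤ X0 := by nlinarith
  have b3 := h.low (2 * k * 3 + k) (by omega) (by omega)
  have hk1 : (1 : ℝ) ≤ k := by exact_mod_cast (by omega : 1 ≤ k)
  have hw := h.w_pos
  push_cast at b3 b2
  simp only [Nat.zero_add] at b1 b2
  nlinarith

end

end Pool.Agent.Work.MP_e17eac_co.BB
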