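import Pool.Agent.Work.MP_e17eac_co.Bd.B20

/-!
# Arbitrary sets, blueprint part B-4 (note 2878): statements

Growth (G), Vitali groups, flux, near pairs. One-sided structure.
-/

namespace Pool.Agent.Work.MP_e17eac_co.BB

open Finset
open Pool.Agent.Work.MP_e17eac_co.DH
open Pool.Agent.Work.MP_e17eac_co.B1

/-- loss of (G) -/
def k6 (kp l : ℕ) : ℕ := 44 + 4 * l + kp

/-- loss of FLUX -/
def k8 (e kp l : ℕ) : ℕ := 2 * e + kp + 3 * k6 kp l + 4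

/-- loss of NEAR -/
def kN (kp l : ℕ) : ℕ := 3 * k6 kp l + 1

section

variable {ι : Type} [Fintype ι] [DecidableEq ι]

/-- The mass radius for the typical lines. -/
noncomputable def rd (K : KSys ι) (r m : ℕ) (H s0 e0 : ℝ) (j : ℕ) (p : ι) : ℝ :=
  rad K (PS K r m H) s0 e0 r j p

open Classical in
/-- The typical lines at distance less than `c * rd j z / 10` from `z`. -/
noncomputable def Nb (K : KSys ι) (r m : ℕ) (H s0 e0 : ℝ) (j : ℕ) (c : ℝ) (z : ι) : Finset ι :=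
  (PS K r m H).filter (fun s => dist0 K s0 e0 z s < c * rd K r m H s0 e0 j z / 10)

/-- Result of VIT: `Z` = centres, `g` = centre of a line, `E''` = the edges whose two lines are
in the box of the centre. -/
structure Vit (K : KSys ι) (r m : ℕ) (H s0 e0 : ℝ) (j k : ℕ) (E' : Finset ℕ) (Z : Finset ι)
    (g : ι → ι) (E'' : Finset ℕ) : Prop where
  Zsub : Z ⊆ E'.image K.a
  sub : E'' ⊆ E'
  gZ : ∀ i ∈ E', g (K.a i) ∈ Z
  dist : ∀ i ∈ E', 10 * dist0 K s0 e0 (K.a i) (g (K.a i)) ≤ 2 * rd K r m H s0 e0 j (g (K.a i))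
  le : ∀ i ∈ E', rd K r m H s0 e0 j (K.a i) ≤ rd K r m H s0 e0 j (g (K.a i))
  ge : ∀ i ∈ E', 4 * rd K r m H s0 e0 j (g (K.a i)) ≤ 5 * rd K r m H s0 e0 j (K.a i)
  disj : ∀ z ∈ Z, ∀ z' ∈ Z, z ≠ z' → Disjoint (Nb K r m H s0 e0 j 1 z) (Nb K r m H s0 e0 j 1 z')
  core : ∀ z ∈ Z, Fintype.card ι < (Nb K r m H s0 e0 j 1 z).card * r ^ (j + k)
  card : Z.card ≤ r ^ (j + k)
  box : ∀ z ∈ Z, (Nb K r m H s0 e0 j 3 z).card * r ^ j ≤ Fintype.card ι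
  inbox : ∀ i ∈ E'', K.a i ∈ Nb K r m H s0 e0 j 3 (g (K.a i)) ∧
    K.b i ∈ Nb K r m H s0 e0 j 3 (g (K.a i))
  few : (E' \ E'').card ≤ 2 * Fintype.card ι * Z.card

open Classical in
/-- The number of lines of `E` at the label of `i` (level `x`) which are near to `a i`. -/
noncomputable def near (K : KSys ι) (r m : ℕ) (H s0 e0 : ℝ) (L : Lab) (E : Finset ℕ)
    (x j i : ℕ) : ℕ :=
  ((E.image K.a).filter (fun s => (∃ i' ∈ E, K.a i' = s ∧ L.lab x i' = L.lab x i) ∧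
    10 * dist0 K s0 e0 s (K.a i) < rd K r m H s0 e0 j (K.a i))).card

end

/-- Inheritance of the one-sided structure. -/
def StOneSub : Prop := ∀ (ι : Type) [Fintype ι] [DecidableEq ι] (K : KSys ι) (r m : ℕ)
  (H D D' s0 e0 : ℝ) (L : Lab) (κ : ℕ → ι → ℕ) (e kp l X2 X4 : ℕ) (S E E' : Finset ℕ),
  1 ≤ D → D ≤ D' → One K r m H D s0 e0 L κ e kp l X2 X4 S E → E' ⊆ E →
  (K.N : ℝ) ≤ D' * E'.card → One K r m H D' s0 e0 L κ e kp l X2 X4 S E'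

/-- Many lines, and the set of typical lines is large enough for all radii of positive level. -/
def StOneBig : Prop := ∃ C : ℕ, ∀ (ι : Type) [Fintype ι] [DecidableEq ι] (K : KSys ι) (r m : ℕ)
  (H D s0 e0 : ℝ) (L : Lab) (κ : ℕ → ι → ℕ) (e kp l X2 X4 : ℕ) (S E : Finset ℕ),
  Big K r m H D C → One K r m H D s0 e0 L κ e kp l X2 X4 S E →
  (Fintype.card ι : ℝ) ≤ D ^ C * (E.image K.a).card ∧
  ∀ j : ℕ, 1 ≤ j → Fintype.card ι < (PS K r m H).card * r ^ j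

/-- (G) **growth**. -/
def StGrow : Prop := ∀ m e kp l : ℕ, ∃ C : ℕ, ∀ (ι : Type) [Fintype ι] [DecidableEq ι]
  (K : KSys ι) (r : ℕ) (H D s0 e0 : ℝ) (L : Lab) (κ : ℕ → ι → ℕ) (X2 X4 : ℕ) (S E : Finset ℕ),
  Big K r m H D C → One K r m H D s0 e0 L κ e kp l X2 X4 S E →
  ∀ j, 4 * X2 ≤ j → j + k6 kp l ≤ 4 * X4 → ∀ i ∈ E,
  (r : ℝ) ^ 2 * rd K r m H s0 e0 (j + k6 kp l) (K.a i) ≤ rd K r m H s0 e0 j (K.a i)

/-- **VIT**: Vitali groups. -/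
def StVit : Prop := ∀ m e kp l : ℕ, ∃ C : ℕ, ∀ (ι : Type) [Fintype ι] [DecidableEq ι]
  (K : KSys ι) (r : ℕ) (H D s0 e0 : ℝ) (L : Lab) (κ : ℕ → ι → ℕ) (X2 X4 : ℕ) (S E : Finset ℕ),
  Big K r m H D C → One K r m H D s0 e0 L κ e kp l X2 X4 S E →
  ∀ j, 4 * X2 ≤ j → j + k6 kp l ≤ 4 * X4 → ∀ E' ⊆ E,
  ∃ (Z : Finset ι) (g : ι → ι) (E'' : Finset ℕ), Vit K r m H s0 e0 j (k6 kp l) E' Z g E''

/-- Token count of FLUX: pairs (token, class) and triples (cell, class, token). -/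
def StFluxTok : Prop := ∀ m e kp l : ℕ, ∃ C C' : ℕ, ∀ (ι : Type) [Fintype ι] [DecidableEq ι]
  (K : KSys ι) (r : ℕ) (H D s0 e0 : ℝ) (L : Lab) (κ : ℕ → ι → ℕ) (X2 X4 : ℕ) (S E : Finset ℕ),
  Big K r m H D C → One K r m H D s0 e0 L κ e kp l X2 X4 S E →
  ∀ y, X2 ≤ y → y ≤ X4 → ∀ s,
  (((E.image (fun i => (K.tok s i, κ y (K.a i)))).card : ℝ) ≤
    D ^ C' * Fintype.card ι * (r : ℝ) ^ (2 * y + e)) ∧
  ∀ x, x ≤ 2 * y → x ≤ m →
    ((E.image (fun i => (cell K r x i, κ y (K.a i), K.tok s i))).card : ℝ) ≤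
      D ^ C' * Fintype.card ι * (r : ℝ) ^ (2 * y + e)

/-- **FLUX**: few pairs (cell of level `x`, class of level `y`). -/
def StFlux : Prop := ∀ m e kp l : ℕ, ∃ C C' : ℕ, ∀ (ι : Type) [Fintype ι] [DecidableEq ι]
  (K : KSys ι) (r : ℕ) (H D s0 e0 : ℝ) (L : Lab) (κ : ℕ → ι → ℕ) (X2 X4 : ℕ) (S E : Finset ℕ),
  Big K r m H D C → One K r m H D s0 e0 L κ e kp l X2 X4 S E →
  ∀ x ∈ S, ∀ y, X2 + k6 kp l + 1 ≤ y → y < x → x ≤ 2 * y → x + kp + 2 * k6 kp l ≤ X4 →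
  ∃ E' ⊆ E, (E.card : ℝ) ≤ D ^ C' * E'.card ∧
    (E'.image (fun i => (cell K r x i, κ y (K.a i)))).card ≤ r ^ (3 * x + 2 * y + k8 e kp l)

/-- **NEAR**: few near lines at a label. -/
def StNear : Prop := ∀ m e kp l k : ℕ, ∃ C : ℕ, ∀ (ι : Type) [Fintype ι] [DecidableEq ι]
  (K : KSys ι) (r : ℕ) (H D s0 e0 : ℝ) (L : Lab) (κ : ℕ → ι → ℕ) (X2 X4 : ℕ) (S E : Finset ℕ),
  Big K r m H D C → One K r m H D s0 e0 L κ e kp l X2 X4 S E →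
  ∀ x, 1 ≤ x → x ≤ m → ∀ j, 4 * X2 ≤ j → j + k6 kp l ≤ 4 * X4 →
  D ^ k * ((E.filter (fun i => Fintype.card ι ^ 2 * r ^ kN kp l <
    near K r m H s0 e0 L E x j i ^ 2 * r ^ (4 * x + j))).card : ℝ) ≤ K.N

end Pool.Agent.Work.MP_e17eac_co.BB
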