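import Pool.Agent.Work.MP_e17eac_co.BB.Final
import Pool.Agent.Work.MP_e17eac_co.Bd.B37
import Pool.Agent.Work.MP_e17eac_co.B6.P_B6

/-!
# Arbitrary sets: the theorem on sweeps, without hypotheses
-/

set_option autoImplicit false

namespace Pool.Agent.Work.MP_e17eac_co.BB

/-- **Main theorem (sweeps)**: every level of an arrangement of `n` lines in general position has
at most `C n ^ (4/3 - c)` vertices. -/
theorem stK : FINAL.StK :=
  Fin.tK (A_SIX Fin.tRad Fin.tOneBig (B6.I_B6 B1.TCell I3_DIST Fin.tRad CFG.stCfg))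

end Pool.Agent.Work.MP_e17eac_co.BB
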