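import Pool.Agent.Work.MP_e17eac_co.Bd.B21
import Pool.Agent.Work.MP_e17eac_co.Bd.B30

/-!
# Adapter: the statement of block SKM in the form of the top assembly
-/

namespace Pool.Agent.Work.MP_e17eac_co.BB

open Finset
open Pool.Agent.Work.MP_e17eac_co.DH
open Pool.Agent.Work.MP_e17eac_co.B1

namespace ASKM

variable {ι : Type} [Fintype ι] [DecidableEq ι]

/-- `Big` implies the range `Rg` of block SKM. -/
theorem rg_of_big {K : KSys ι} {r m : ℕ} {H D : ℝ} {C : ℕ}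
    (h : Big K r m H D (3 * (C + 1))) : SK.Rg K r m H D C := by
  have hD1 : (1 : ℝ) ≤ D := by linarith [h.D2]
  have hr2 : (2 : ℝ) ≤ (r : ℝ) := by exact_mod_cast h.std.two
  have hr1 : (1 : ℝ) ≤ (r : ℝ) := by linarith
  have hDr : D ≤ (r : ℝ) := by
    calc D = D ^ 1 := (pow_one D).symm
      _ ≤ D ^ (3 * (C + 1)) := pow_le_pow_right₀ hD1 (by omega)
      _ ≤ r := h.Dr
  have hn8 : 8 ≤ Fintype.card ι := by
    have h1 : (2 : ℝ) ^ 3 ≤ (Fintype.card ι : ℝ) := by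
      calc (2 : ℝ) ^ 3 ≤ (r : ℝ) ^ 3 := pow_le_pow_left₀ (by norm_num) hr2 3
        _ ≤ (r : ℝ) ^ (3 * (C + 1) * (m + 1)) := by
            refine pow_le_pow_right₀ hr1 ?_
            nlinarith [Nat.zero_le C, Nat.zero_le m, Nat.zero_le (C * m)]
        _ ≤ _ := h.rn
    have h2 : ((8 : ℕ) : ℝ) ≤ (Fintype.card ι : ℝ) := by
      refine le_trans (le_of_eq (by norm_num)) h1
    exact_mod_cast h2
  have hnpos : (0 : ℝ) < (Fintype.card ι : ℝ) := by exact_mod_cast (by omega)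
  refine ⟨h.std, h.gp, h.D2, h.HD, ?_, ?_, ?_⟩
  · -- logarithm
    have h1 : 3 ≤ Nat.log 2 (Fintype.card ι) := by
      have : Nat.log 2 8 ≤ Nat.log 2 (Fintype.card ι) := Nat.log_mono_right hn8
      have e : Nat.log 2 8 = 3 := by
        rw [show (8 : ℕ) = 2 ^ 3 by norm_num]
        exact Nat.log_pow (by norm_num) 3
      omega
    have h2 : Fintype.card ι < 2 ^ (Nat.log 2 (Fintype.card ι) + 1) :=
      Nat.lt_pow_succ_log_self (by norm_num) _
    have h3 : Real.log (Fintype.card ι) ≤ ((Nat.log 2 (Fintype.card ι) : ℝ) + 1) * Real.log 2 := by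
      have e1 : (Fintype.card ι : ℝ) ≤ (2 : ℝ) ^ (Nat.log 2 (Fintype.card ι) + 1) := by
        exact_mod_cast h2.le
      have e2 := Real.log_le_log hnpos e1
      rw [Real.log_pow] at e2
      push_cast at e2
      exact e2
    have h4 := Real.log_two_lt_d9
    have h5 : (3 : ℝ) ≤ (Nat.log 2 (Fintype.card ι) : ℝ) := by exact_mod_cast h1
    have h6 : ((Nat.log 2 (Fintype.card ι) : ℝ) + 1) * Real.log 2 ≤
        ((Nat.log 2 (Fintype.card ι) : ℝ) + 1) * 0.7 := by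
      refine mul_le_mul_of_nonneg_left (by linarith) (by positivity)
    have h7 := h.log
    have h8 := h.HD
    linarith
  · exact (pow_le_pow_right₀ hD1 (by omega)).trans h.Dr
  · -- density
    have h1 : (r : ℝ) ^ (C + 1) ≤ (Fintype.card ι : ℝ) ^ ((1 : ℝ) / 3) := by
      have e1 : ((r : ℝ) ^ (C + 1)) ^ 3 ≤ (Fintype.card ι : ℝ) := by
        rw [← pow_mul]
        calc (r : ℝ) ^ ((C + 1) * 3) ≤ (r : ℝ) ^ (3 * (C + 1) * (m + 1)) := by
              refine pow_le_pow_right₀ hr1 ?_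
              nlinarith [Nat.zero_le C, Nat.zero_le m, Nat.zero_le (C * m)]
          _ ≤ _ := h.rn
      have e2 : (((r : ℝ) ^ (C + 1)) ^ 3) ^ ((1 : ℝ) / 3) = (r : ℝ) ^ (C + 1) := by
        rw [← Real.rpow_natCast (((r : ℝ) ^ (C + 1))) 3, ← Real.rpow_mul (by positivity)]
        norm_num
      rw [← e2]
      exact Real.rpow_le_rpow (by positivity) e1 (by norm_num)
    have h2 := h.std.dense
    have h3 : (Fintype.card ι : ℝ) ^ ((4 : ℝ) / 3) =
        Fintype.card ι * (Fintype.card ι : ℝ) ^ ((1 : ℝ) / 3) := by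
      have e1 : ((4 : ℝ) / 3) = 1 + 1 / 3 := by norm_num
      rw [e1, Real.rpow_add hnpos, Real.rpow_one]
    rw [h3] at h2
    have hN : (0 : ℝ) ≤ (K.N : ℝ) := Nat.cast_nonneg _
    have h4 : (Fintype.card ι : ℝ) * (r : ℝ) ^ (C + 1) ≤ r * K.N := by
      calc (Fintype.card ι : ℝ) * (r : ℝ) ^ (C + 1)
          ≤ Fintype.card ι * (Fintype.card ι : ℝ) ^ ((1 : ℝ) / 3) :=
            mul_le_mul_of_nonneg_left h1 hnpos.le
        _ ≤ H * K.N := h2
        _ ≤ r * K.N := mul_le_mul_of_nonneg_right (h.HD.trans hDr) hN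
    have h5 : (r : ℝ) * (Fintype.card ι * (r : ℝ) ^ C) ≤ r * K.N := by
      rw [pow_succ] at h4
      nlinarith
    exact le_of_mul_le_mul_left h5 (by linarith)

/-- `Cls` implies `HashOK`. -/
theorem hash_of_cls {K : KSys ι} {r m : ℕ} {H D : ℝ} {y : ℕ} {E : Bool → Finset ℕ} {κ : ι → ℕ}
    (h : SK.Cls K r m H y D E κ) (s : Bool) : HashOK K r D (PS K r m H) y κ (E s) :=
  ⟨h.h1 s, h.key, h.h4 s, h.h5 s⟩

end ASKM

open ASKM in
/-- Block SKM in the form of the top assembly. -/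
theorem A_SKM (h : SK.StSKMall) : StSKM := by
  intro q hq
  have hq0 : (0 : ℝ) < (q : ℝ) := by exact_mod_cast hq
  obtain ⟨d, hd⟩ := h (1 / (q : ℝ)) (by positivity)
  refine ⟨d, fun m => ?_⟩
  obtain ⟨C, hC⟩ := hd m
  refine ⟨3 * (C + 1), C, ?_⟩
  intro ι _ _ K r H D P E hbig hts
  obtain ⟨P', E', κ, h1, h2, h3⟩ := hC ι K r m H D P E le_rfl (rg_of_big hbig) hts
  refine ⟨P', E', κ, h1, h2, fun y _ hy => ⟨fun s => hash_of_cls (h3 y hy).1 s, ?_⟩⟩
  have h4 := (h3 y hy).2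
  have h5 : ⌊(1 / (q : ℝ)) * (y : ℝ)⌋₊ = y / q := by
    rw [one_div_mul_eq_div]
    exact Nat.floor_div_eq_div y q
  rw [h5] at h4
  have h6 : ((P'.image (κ y)).card : ℝ) ≤ ((r ^ (4 * y + (y / q + d)) : ℕ) : ℝ) := by
    push_cast
    rw [← add_assoc]
    exact h4
  exact_mod_cast h6

end Pool.Agent.Work.MP_e17eac_co.BB
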