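import Pool.Agent.Work.MP_e17eac_co.Bd.B21
import Pool.Agent.Work.MP_e17eac_co.FINAL.Pts

/-!
# Arbitrary sets: the assembly of the blocks

`StAS2`, `StSKM`, `StB3`, `StEnd` and the count of hygienic edges give `StMain` and `FINAL.StK`.
-/

set_option autoImplicit false

namespace Pool.Agent.Work.MP_e17eac_co.BB

open Finset
open Pool.Agent.Work.MP_e17eac_co.DH
open Pool.Agent.Work.MP_e17eac_co.B1

namespace ATOP

/-- The choice of `Q`, a small power of `n`. -/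
theorem nums (M : ℕ) (hM : 1 ≤ M) (W : ℝ) : ∃ c η : ℝ, 0 < c ∧ c ≤ 1 / 3 ∧ 0 < η ∧
    ∃ n0 : ℕ, ∀ n : ℕ, n0 ≤ n → ∃ Q : ℕ, (n : ℝ) ^ η ≤ Q ∧ Q ^ M ≤ n ∧ W ≤ Q ∧ 2 ≤ Q ∧
    (Nat.log 2 n : ℝ) + 2 ≤ Q ∧ (n : ℝ) ^ c ≤ Q ∧
    W * (n : ℝ) ^ c * (Q : ℝ) ^ (-((1 : ℝ) / 6)) ≤ 1 / 2 := by
  have hM0 : (0 : ℝ) < M := by exact_mod_cast hM
  set η : ℝ := 1 / (2 * M) with hη
  have hη0 : 0 < η := by positivity
  have hη1 : η ≤ 1 := by
    rw [hη, div_le_one (by positivity)]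
    have : (1 : ℝ) ≤ M := by exact_mod_cast hM
    linarith
  have t1 : Filter.Tendsto (fun n : ℕ => (n : ℝ) ^ (η / 12)) Filter.atTop Filter.atTop :=
    (tendsto_rpow_atTop (by positivity)).comp tendsto_natCast_atTop_atTop
  have e1 := (t1.eventually_ge_atTop (2 * |W| + 2)).and
    ((Filter.eventually_ge_atTop (4 ^ M)).and (Filter.eventually_ge_atTop 1))
  have e2 : ∀ᶠ n : ℕ in Filter.atTop, Real.log n ≤ (1 / 4) * (n : ℝ) ^ (η / 2) := by
    have h1 := (isLittleO_log_rpow_atTop (r := η / 2) (by positivity)).bound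
      (by norm_num : (0 : ℝ) < 1 / 4)
    have h2 := tendsto_natCast_atTop_atTop (R := ℝ) |>.eventually h1
    filter_upwards [h2, Filter.eventually_ge_atTop 1] with n hn hn1
    have h3 : (1 : ℝ) ≤ n := by exact_mod_cast hn1
    rw [Real.norm_of_nonneg (Real.log_nonneg h3), Real.norm_of_nonneg (by positivity)] at hn
    exact hn
  obtain ⟨n0, hn0⟩ := Filter.eventually_atTop.1 (e1.and e2)
  refine ⟨η / 12, η, by positivity, by linarith, hη0, n0, ?_⟩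
  intro n hn
  obtain ⟨⟨h1, h2, h3⟩, h4⟩ := hn0 n hn
  have hn1 : (1 : ℝ) ≤ n := by exact_mod_cast h3
  have hnpos : (0 : ℝ) < n := by linarith
  have hy1 : (1 : ℝ) ≤ (n : ℝ) ^ η := Real.one_le_rpow hn1 hη0.le
  have hmono : (n : ℝ) ^ (η / 12) ≤ (n : ℝ) ^ η :=
    Real.rpow_le_rpow_of_exponent_le hn1 (by linarith)
  have hW : |W| ≤ (n : ℝ) ^ (η / 12) := by
    have := abs_nonneg W
    linarith
  have h2' : (2 : ℝ) ≤ (n : ℝ) ^ (η / 12) := by
    have := abs_nonneg W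
    linarith
  have hQ : (n : ℝ) ^ η ≤ (⌈(n : ℝ) ^ η⌉₊ : ℝ) := Nat.le_ceil _
  have hQ2 : (⌈(n : ℝ) ^ η⌉₊ : ℝ) ≤ 2 * (n : ℝ) ^ η := by
    have := Nat.ceil_lt_add_one (by positivity : (0 : ℝ) ≤ (n : ℝ) ^ η)
    linarith
  refine ⟨⌈(n : ℝ) ^ η⌉₊, hQ, ?_, ?_, ?_, ?_, ?_, ?_⟩
  · have h5 : ((⌈(n : ℝ) ^ η⌉₊ : ℕ) : ℝ) ^ M ≤ n := by
      calc ((⌈(n : ℝ) ^ η⌉₊ : ℕ) : ℝ) ^ M ≤ (2 * (n : ℝ) ^ η) ^ M :=
            pow_le_pow_left₀ (by positivity) hQ2 M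
        _ = 2 ^ M * ((n : ℝ) ^ η) ^ M := by rw [mul_pow]
        _ = 2 ^ M * (n : ℝ) ^ ((1 : ℝ) / 2) := by
            rw [← Real.rpow_natCast ((n : ℝ) ^ η), ← Real.rpow_mul hnpos.le]
            congr 2
            rw [hη]; field_simp
        _ ≤ (n : ℝ) ^ ((1 : ℝ) / 2) * (n : ℝ) ^ ((1 : ℝ) / 2) := by
            apply mul_le_mul_of_nonneg_right _ (by positivity)
            have h6 : ((4 : ℝ) ^ M) ≤ n := by exact_mod_cast h2
            calc (2 : ℝ) ^ M = ((4 : ℝ) ^ M) ^ ((1 : ℝ) / 2) := by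
                  rw [← Real.rpow_natCast 4, ← Real.rpow_mul (by norm_num),
                    mul_comm (M : ℝ), Real.rpow_mul (by norm_num), Real.rpow_natCast]
                  congr 1
                  rw [show (4 : ℝ) = 2 ^ (2 : ℝ) by norm_num, ← Real.rpow_mul (by norm_num)]
                  norm_num
              _ ≤ (n : ℝ) ^ ((1 : ℝ) / 2) := Real.rpow_le_rpow (by positivity) h6 (by norm_num)
        _ = n := by rw [← Real.rpow_add hnpos]; norm_num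
    exact_mod_cast h5
  · exact (le_abs_self W).trans (hW.trans (hmono.trans hQ))
  · have : (2 : ℝ) ≤ (⌈(n : ℝ) ^ η⌉₊ : ℝ) := h2'.trans (hmono.trans hQ)
    exact_mod_cast this
  · refine le_trans ?_ hQ
    have h5 : (Nat.log 2 n : ℝ) ≤ 2 * Real.log n := by
      have h6 : ((2 : ℝ) ^ (Nat.log 2 n)) ≤ n := by
        exact_mod_cast Nat.pow_log_le_self 2 (by omega)
      have h7 := Real.log_le_log (by positivity) h6
      rw [Real.log_pow] at h7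
      have h8 : (1 : ℝ) / 2 ≤ Real.log 2 := by
        have := Real.log_two_gt_d9
        linarith
      have h9 : (0 : ℝ) ≤ Nat.log 2 n := Nat.cast_nonneg _
      nlinarith
    have h6 : (n : ℝ) ^ (η / 2) * (n : ℝ) ^ (η / 2) = (n : ℝ) ^ η := by
      rw [← Real.rpow_add hnpos]; congr 1; ring
    have h7 : (2 : ℝ) ≤ (n : ℝ) ^ (η / 2) :=
      h2'.trans (Real.rpow_le_rpow_of_exponent_le hn1 (by linarith))
    nlinarith
  · exact hmono.trans hQ
  · have h5 : ((⌈(n : ℝ) ^ η⌉₊ : ℕ) : ℝ) ^ (-((1 : ℝ) / 6)) ≤ ((n : ℝ) ^ η) ^ (-((1 : ℝ) / 6)) :=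
      Real.rpow_le_rpow_of_nonpos (by linarith) hQ (by norm_num)
    have h6 : ((n : ℝ) ^ η) ^ (-((1 : ℝ) / 6)) = (n : ℝ) ^ (-(η / 6)) := by
      rw [← Real.rpow_mul hnpos.le]; congr 1; ring
    rw [h6] at h5
    have h7 : (0 : ℝ) ≤ (n : ℝ) ^ (η / 12) := by positivity
    calc W * (n : ℝ) ^ (η / 12) * ((⌈(n : ℝ) ^ η⌉₊ : ℕ) : ℝ) ^ (-((1 : ℝ) / 6))
        ≤ |W| * (n : ℝ) ^ (η / 12) * ((⌈(n : ℝ) ^ η⌉₊ : ℕ) : ℝ) ^ (-((1 : ℝ) / 6)) := by
          apply mul_le_mul_of_nonneg_right _ (by positivity)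
          exact mul_le_mul_of_nonneg_right (le_abs_self W) h7
      _ ≤ |W| * (n : ℝ) ^ (η / 12) * (n : ℝ) ^ (-(η / 6)) :=
          mul_le_mul_of_nonneg_left h5 (by positivity)
      _ = |W| / (n : ℝ) ^ (η / 12) := by
          rw [mul_assoc, ← Real.rpow_add hnpos, show η / 12 + -(η / 6) = -(η / 12) by ring,
            Real.rpow_neg hnpos.le]
          exact (div_eq_mul_inv _ _).symm
      _ ≤ 1 / 2 := by
          rw [div_le_div_iff₀ (by positivity) (by norm_num)]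
          linarith

/-- The constant of `StEnd` for all intervals of levels. -/
theorem end_unif {A : ℕ} (hA : ∀ (e l X2 X4 m : ℕ), A * (e + l + 1) ≤ X2 →
    X2 + A * (e + l + 1) ≤ X4 → X4 + 1 ≤ m → ∃ C : ℕ, ∀ (ι : Type) [Fintype ι] [DecidableEq ι]
    (K : KSys ι) (r : ℕ) (H D s0 e0 : ℝ) (L : Lab) (κ : ℕ → ι → ℕ) (S E : Finset ℕ),
    Big K r m H D C → ¬ One K r m H D s0 e0 L κ e (e + 2) l X2 X4 S E) (e m L0 : ℕ) :
    ∃ C : ℕ, ∀ (l X2 X4 : ℕ), l ≤ L0 → A * (e + l + 1) ≤ X2 →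
    X2 + A * (e + l + 1) ≤ X4 → X4 + 1 ≤ m → ∀ (ι : Type) [Fintype ι] [DecidableEq ι]
    (K : KSys ι) (r : ℕ) (H D s0 e0 : ℝ) (L : Lab) (κ : ℕ → ι → ℕ) (S E : Finset ℕ),
    Big K r m H D C → ¬ One K r m H D s0 e0 L κ e (e + 2) l X2 X4 S E := by
  have h : ∀ l X2 X4 : ℕ, ∃ C : ℕ, A * (e + l + 1) ≤ X2 →
      X2 + A * (e + l + 1) ≤ X4 → X4 + 1 ≤ m → ∀ (ι : Type) [Fintype ι] [DecidableEq ι]
      (K : KSys ι) (r : ℕ) (H D s0 e0 : ℝ) (L : Lab) (κ : ℕ → ι → ℕ) (S E : Finset ℕ),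
      Big K r m H D C → ¬ One K r m H D s0 e0 L κ e (e + 2) l X2 X4 S E := by
    intro l X2 X4
    by_cases h1 : A * (e + l + 1) ≤ X2 ∧ X2 + A * (e + l + 1) ≤ X4 ∧ X4 + 1 ≤ m
    · obtain ⟨C, hC⟩ := hA e l X2 X4 m h1.1 h1.2.1 h1.2.2
      exact ⟨C, fun _ _ _ => hC⟩
    · exact ⟨0, fun h2 h3 h4 => absurd ⟨h2, h3, h4⟩ h1⟩
  choose Cf hCf using h
  refine ⟨∑ l ∈ range (L0 + 1), ∑ X2 ∈ range (m + 1), ∑ X4 ∈ range (m + 1), Cf l X2 X4, ?_⟩
  intro l X2 X4 hl h2 h3 h4 ι _ _ K r H D s0 e0 L κ S E hB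
  refine hCf l X2 X4 h2 h3 h4 ι K r H D s0 e0 L κ S E (X3B3.big_le hB ?_)
  calc Cf l X2 X4 ≤ ∑ X4 ∈ range (m + 1), Cf l X2 X4 :=
        single_le_sum (f := fun X4 => Cf l X2 X4) (fun _ _ => Nat.zero_le _)
          (mem_range.2 (by omega))
    _ ≤ ∑ X2 ∈ range (m + 1), ∑ X4 ∈ range (m + 1), Cf l X2 X4 :=
        single_le_sum (f := fun X2 => ∑ X4 ∈ range (m + 1), Cf l X2 X4)
          (fun _ _ => Nat.zero_le _) (mem_range.2 (by omega))
    _ ≤ _ := single_le_sum (f := fun l => ∑ X2 ∈ range (m + 1), ∑ X4 ∈ range (m + 1), Cf l X2 X4)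
          (fun _ _ => Nat.zero_le _) (mem_range.2 (by omega))

/-- The blocks for a dense level: contradiction. -/
theorem core (hSub : StOneSub) (hAS : StAS2) (hSKM : StSKM) (hB3 : StB3) (hEnd : StEnd) :
    ∃ m M : ℕ, 1 ≤ M ∧ ∀ η : ℝ, 0 < η → ∃ (b n0 : ℕ), b * (4 * m) + 1 ≤ M ∧ 1 ≤ b ∧
    ∀ (ι : Type) [Fintype ι]
    [DecidableEq ι] (K : KSys ι) (Q : ℕ), Function.Injective K.x → XSWEEP.GP K.x K.y →
    n0 ≤ Fintype.card ι → (Fintype.card ι : ℝ) ^ η ≤ Q → 2 ≤ Q → Q ^ M ≤ Fintype.card ι →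
    (Fintype.card ι : ℝ) ^ ((4 : ℝ) / 3) ≤ Q * K.N → Fintype.card ι ≤ K.N →
    (K.N : ℝ) ≤ Q * (Fintype.card ι : ℝ) ^ ((4 : ℝ) / 3) →
    (Nat.log 2 (Fintype.card ι) : ℝ) + 2 ≤ Q →
    ∀ E0 : Finset ℕ, (∀ i ∈ E0, Hyg K (Q ^ b) m Q i) → K.N ≤ Q * E0.card → False := by
  obtain ⟨A, hA⟩ := hEnd
  set G : ℕ := A + A * A with hG
  obtain ⟨d, hd⟩ := hSKM (4 * (G + 1)) (by omega)
  set e : ℕ := 2 * d + 2 with he
  set X0 : ℕ := 2 * (G + 1) * (d + 2) with hX0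
  set m : ℕ := 2 * X0 + 1 with hm
  set L0 : ℕ := A * (e + 1 + 1) + 1 with hL0
  obtain ⟨CE, hCE⟩ := end_unif hA e m L0
  obtain ⟨C3, C3', h3⟩ := hB3 m e (fun l => A * (e + l + 1))
    (fun a b hab => Nat.mul_le_mul_left _ (by omega))
  obtain ⟨C2, C2', h2⟩ := hd m
  obtain ⟨A1, h1⟩ := hAS m
  set CT : ℕ := C2 + (C2' + 1) * C3 + (C2' + 1) * (C3' + 1) * CE + 1 with hCT
  set b : ℕ := A1 + (A1 + 1) * CT with hb
  set M : ℕ := b * (CT * (m + 1)) + (b * (4 * m) + A1) + 1 with hM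
  refine ⟨m, M, by omega, ?_⟩
  intro η hη
  obtain ⟨n0, hn0⟩ := h1 η hη
  refine ⟨b, n0, by omega, ?_, ?_⟩
  · have : 1 ≤ (A1 + 1) * CT := Nat.mul_pos (by omega) (by omega)
    omega
  intro ι _ _ K Q hinj hgp hn hQη hQ2 hQM hdense hNn hub hlog E0 hE0 hcard0
  have hb1 : 1 ≤ b := by
    have : 1 ≤ (A1 + 1) * CT := Nat.mul_pos (by omega) (by omega)
    omega
  have hQ1 : 1 ≤ Q := by omega
  have hQR2 : (2 : ℝ) ≤ Q := by exact_mod_cast hQ2
  have hQR1 : (1 : ℝ) ≤ Q := by linarith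
  have hQR0 : (0 : ℝ) < Q := by linarith
  obtain ⟨s0, s1, s2, e0, L, P, E, hEE, hTS, hLab, hleft, hright, hgap⟩ := hn0 ι K Q b Q hinj hgp
    hn hQη hdense (by omega) (by
      refine le_trans ?_ hQM
      rw [← pow_mul, ← pow_add]
      exact Nat.pow_le_pow_right hQ1 (by omega)) E0 hE0 hcard0
  set r : ℕ := Q ^ b with hr
  -- the global assumptions
  have hD0 : (Q : ℝ) ^ A1 ≤ (Q : ℝ) ^ (A1 + 1) := pow_le_pow_right₀ hQR1 (by omega)
  have hQD : (Q : ℝ) ≤ (Q : ℝ) ^ (A1 + 1) := le_self_pow₀ hQR1 (by omega)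
  have hBig : Big K r m Q ((Q : ℝ) ^ (A1 + 1)) CT :=
    { std :=
        { inj := hinj
          two := by
            rw [hr]
            calc 2 ≤ Q := hQ2
              _ = Q ^ 1 := (pow_one Q).symm
              _ ≤ Q ^ b := Nat.pow_le_pow_right hQ1 hb1
          one := hQR1
          pow := by
            refine le_trans ?_ (hQM.trans hNn)
            rw [hr, ← pow_mul]
            exact Nat.pow_le_pow_right hQ1 (by omega)
          dense := hdense }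
      gp := hgp
      HD := hQD
      D2 := hQR2.trans hQD
      log := hlog
      ub := hub
      Dr := by
        rw [← pow_mul, hr]
        push_cast
        exact pow_le_pow_right₀ hQR1 (by omega)
      rn := by
        have h5 : r ^ (CT * (m + 1)) ≤ Fintype.card ι := by
          refine le_trans ?_ hQM
          rw [hr, ← pow_mul]
          exact Nat.pow_le_pow_right hQ1 (by omega)
        exact_mod_cast h5 }
  have hr1 : 1 ≤ r := by have := hBig.std.two; omega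
  -- hash classes
  obtain ⟨P', E', κ, hsub2, hTS2, hH2⟩ := h2 ι K r Q ((Q : ℝ) ^ (A1 + 1)) P E
    (X3B3.big_le hBig (by rw [hCT]; omega)) (X3B3.ts_mono hD0 hTS)
  obtain ⟨D0, hD0def⟩ : ∃ D0 : ℝ, D0 = (Q : ℝ) ^ (A1 + 1) := ⟨_, rfl⟩
  rw [← hD0def] at hD0 hQD hBig hTS2 hH2
  have hD02 : 2 ≤ D0 := hBig.D2
  have hD01 : 1 ≤ D0 := by linarith
  have hD12 : D0 ^ C2' ≤ D0 ^ (C2' + 1) := pow_le_pow_right₀ hD01 (by omega)
  have hD11 : D0 ≤ D0 ^ (C2' + 1) := le_self_pow₀ hD01 (by omega)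
  have hs : 0 < s2 - s1 := by
    have h5 := (hLab false).base
    have h6 : 0 < (Q : ℝ) ^ A1 * (s2 - s1) := by linarith
    exact (pos_iff_pos_of_mul_pos h6).1 (by positivity)
  have hTwo : Two K r m Q (D0 ^ (C2' + 1)) s0 s1 s2 e0 L κ e X0 (2 * X0) P' E' :=
    { ts := X3B3.ts_mono hD12 hTS2
      lab := fun s => XOne.lab_sub (hD0.trans hD11) (hLab s) (hsub2.2 s)
      left := fun x hx1 hx2 i hi => hleft x hx1 hx2 i (hsub2.2 false hi)
      right := fun x hx1 hx2 i hi => hright x hx1 hx2 i (hsub2.2 true hi)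
      gap := hgap.trans (mul_le_mul_of_nonneg_right (hD0.trans hD11) hs.le)
      lev := ⟨by rw [hX0]; exact Nat.mul_pos (by omega) (by omega), by omega⟩
      hash := fun y hy1 hy2 s => XOne.hash_sub hD12 ((hH2 y (by
        have : 0 < X0 := by rw [hX0]; exact Nat.mul_pos (by omega) (by omega)
        omega) (by omega)).1 s) (Subset.refl _)
      beta := fun y hy1 hy2 => by
        refine ((hH2 y (by
          have : 0 < X0 := by rw [hX0]; exact Nat.mul_pos (by omega) (by omega)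
          omega) (by omega)).2).trans (Nat.pow_le_pow_right hr1 ?_)
        have h5 : y / (4 * (G + 1)) ≤ d + 2 := by
          apply Nat.div_le_of_le_mul
          calc y ≤ 2 * X0 := hy2
            _ = 4 * (G + 1) * (d + 2) := by rw [hX0]; ring
        omega }
  have hBig1 : Big K r m Q (D0 ^ (C2' + 1)) C3 :=
    X3B3.big_pow hBig (by omega) (by rw [hCT]; omega)
  have hThX : A * (e + (A * (e + 1 + 1) + 1) + 1) ≤ X0 := by
    rw [hX0]
    calc A * (e + (A * (e + 1 + 1) + 1) + 1) = (A + A * A) * (e + 2) := by ring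
      _ = 2 * G * (d + 2) := by rw [hG, he]; ring
      _ ≤ 2 * (G + 1) * (d + 2) := Nat.mul_le_mul_right _ (by omega)
  obtain ⟨s, l, X2, X4, S, E'', hl, hX02, hX24, hX41, -, hOne⟩ := h3 ι K r Q (D0 ^ (C2' + 1))
    s0 s1 s2 e0 L κ X0 (2 * X0) P' E' hBig1 hTwo (by omega) (by omega)
  have hD21 : (1 : ℝ) ≤ D0 ^ (C2' + 1) := one_le_pow₀ hD01
  have hOne' : One K r m Q ((D0 ^ (C2' + 1)) ^ (C3' + 1)) s0 e0 L κ e (e + 2) l X2 X4 S E'' :=
    hSub ι K r m Q _ _ s0 e0 L κ e (e + 2) l X2 X4 S E'' E'' (one_le_pow₀ hD21)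
      (pow_le_pow_right₀ hD21 (by omega)) hOne (Subset.refl _)
      (hOne.card.trans (mul_le_mul_of_nonneg_right (pow_le_pow_right₀ hD21 (by omega))
        (Nat.cast_nonneg _)))
  refine hCE l X2 X4 hl ?_ hX24 (by omega) ι K r Q _ s0 e0 L κ S E'' ?_ hOne'
  · calc A * (e + l + 1) ≤ A * (e + (A * (e + 1 + 1) + 1) + 1) :=
          Nat.mul_le_mul_left _ (by omega)
      _ ≤ X0 := hThX
      _ ≤ X2 := hX02
  · rw [← pow_mul]
    exact X3B3.big_pow hBig (Nat.mul_pos (by omega) (by omega)) (by rw [hCT]; omega)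

end ATOP

open ATOP in
/-- **Top theorem.** -/
theorem A_TOP (hSub : StOneSub) (hAS : StAS2) (hSKM : StSKM) (hB3 : StB3) (hEnd : StEnd)
    (hHyg : StHygCnt) (hFL : StFL) : StMain := by
  classical
  obtain ⟨m, M, hM, hcore⟩ := core hSub hAS hSKM hB3 hEnd
  obtain ⟨CH, hCH1, hCH⟩ := hHyg
  obtain ⟨c, η, hc, hc3, hη, n1, hn1⟩ := nums M hM (CH * ((m : ℝ) + 1) ^ 2 + 16)
  obtain ⟨b, n0, hbM, hb1, hb⟩ := hcore η hη
  refine ⟨c, hc, max n0 (max n1 1), ?_⟩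
  intro ι _ _ K hinj hgp hn
  by_contra hcon
  push Not at hcon
  have hn0 : n0 ≤ Fintype.card ι := (le_max_left _ _).trans hn
  have hn1' : n1 ≤ Fintype.card ι := (le_max_left _ _).trans ((le_max_right _ _).trans hn)
  have hnpos : 1 ≤ Fintype.card ι := (le_max_right _ _).trans ((le_max_right _ _).trans hn)
  obtain ⟨n, hnn⟩ : ∃ n : ℝ, n = (Fintype.card ι : ℝ) := ⟨_, rfl⟩
  obtain ⟨Q, hQη, hQM, hQW, hQ2, hQlog, hQc, hQH⟩ := hn1 _ hn1'
  rw [← hnn] at hQη hQc hQH hcon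
  have hnR1 : (1 : ℝ) ≤ n := by rw [hnn]; exact_mod_cast hnpos
  have hnR0 : (0 : ℝ) < n := by linarith
  have hQR2 : (2 : ℝ) ≤ Q := by exact_mod_cast hQ2
  have hc0 : (0 : ℝ) < n ^ c := by positivity
  have hN0 : (0 : ℝ) ≤ (K.N : ℝ) := Nat.cast_nonneg _
  have hsplit : n ^ ((4 : ℝ) / 3) = n ^ c * n ^ ((4 : ℝ) / 3 - c) := by
    rw [← Real.rpow_add hnR0]; congr 1; ring
  have hdc : n ^ ((4 : ℝ) / 3) ≤ n ^ c * K.N := by
    rw [hsplit]; exact mul_le_mul_of_nonneg_left hcon.le hc0.le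
  have hdQ : n ^ ((4 : ℝ) / 3) ≤ Q * K.N := hdc.trans (mul_le_mul_of_nonneg_right hQc hN0)
  have hNn : Fintype.card ι ≤ K.N := by
    have h5 : n ≤ n ^ ((4 : ℝ) / 3 - c) := by
      calc n = n ^ (1 : ℝ) := (Real.rpow_one n).symm
        _ ≤ n ^ ((4 : ℝ) / 3 - c) := Real.rpow_le_rpow_of_exponent_le hnR1 (by linarith)
    have h6 : n ≤ K.N := h5.trans hcon.le
    rw [hnn] at h6
    exact_mod_cast h6
  have hNpos : 0 < K.N := by omega
  have hub : (K.N : ℝ) ≤ Q * n ^ ((4 : ℝ) / 3) := by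
    have h5 := (hFL ι K hinj (range K.N) (Subset.refl _) false).1
    rw [card_range] at h5
    have h6 : (((range K.N).image (K.ln false)).card : ℝ) ≤ n := by
      rw [hnn]; exact_mod_cast card_le_univ _
    have h7 : (K.N : ℝ) ^ 3 ≤ (16 * n ^ ((4 : ℝ) / 3)) ^ 3 := by
      have h8 : (n ^ ((4 : ℝ) / 3)) ^ 3 = n ^ 4 := by
        rw [← Real.rpow_natCast, ← Real.rpow_mul hnR0.le, ← Real.rpow_natCast]
        norm_num
      rw [mul_pow, h8]
      rw [← hnn] at h5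
      calc (K.N : ℝ) ^ 3 ≤ 4096 * n ^ 3 * (((range K.N).image (K.ln false)).card : ℝ) := h5
        _ ≤ 4096 * n ^ 3 * n := mul_le_mul_of_nonneg_left h6 (by positivity)
        _ = 16 ^ 3 * n ^ 4 := by ring
    have h9 : (K.N : ℝ) ≤ 16 * n ^ ((4 : ℝ) / 3) :=
      le_of_pow_le_pow_left₀ (by norm_num) (by positivity) h7
    have h10 : (16 : ℝ) ≤ Q := by
      have : 0 ≤ CH * ((m : ℝ) + 1) ^ 2 := by positivity
      linarith
    exact h9.trans (mul_le_mul_of_nonneg_right h10 (by positivity))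
  -- hygienic edges
  have hr1 : 1 ≤ Q ^ b := Nat.one_le_pow _ _ (by omega)
  have hhyg := hCH ι K hinj hgp (Q ^ b) m Q (n ^ c) hr1 (by linarith)
    (Real.one_le_rpow hnR1 hc.le) (by
      refine le_trans ?_ (hQM.trans hNn)
      rw [← pow_mul]
      exact Nat.pow_le_pow_right (by omega) (by omega)) (by rw [← hnn]; exact hdc)
  set E0 : Finset ℕ := (range K.N).filter (fun i => Hyg K (Q ^ b) m Q i) with hE0
  have hsum : E0.card + ((range K.N).filter (fun i => ¬ Hyg K (Q ^ b) m Q i)).card = K.N := by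
    have := card_filter_add_card_filter_not (s := range K.N) (fun i => Hyg K (Q ^ b) m Q i)
    rw [card_range] at this
    exact this
  have hhalf : (((range K.N).filter (fun i => ¬ Hyg K (Q ^ b) m Q i)).card : ℝ) ≤
      1 / 2 * K.N := by
    refine hhyg.trans (mul_le_mul_of_nonneg_right ?_ hN0)
    refine le_trans ?_ hQH
    have h5 : (0 : ℝ) ≤ (Q : ℝ) ^ (-((1 : ℝ) / 6)) := by positivity
    have h6 : CH * ((m : ℝ) + 1) ^ 2 * n ^ c ≤ (CH * ((m : ℝ) + 1) ^ 2 + 16) * n ^ c :=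
      mul_le_mul_of_nonneg_right (by linarith) hc0.le
    exact mul_le_mul_of_nonneg_right h6 h5
  refine hb ι K Q hinj hgp hn0 (by rw [← hnn]; exact hQη) hQ2 hQM (by rw [← hnn]; exact hdQ) hNn
    (by rw [← hnn]; exact hub) hQlog E0 (fun i hi => (mem_filter.1 hi).2) ?_
  have h5 : (E0.card : ℝ) + (((range K.N).filter (fun i => ¬ Hyg K (Q ^ b) m Q i)).card : ℝ) =
      K.N := by exact_mod_cast hsum
  have h6 : (K.N : ℝ) ≤ 2 * E0.card := by linarith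
  have h7 : (K.N : ℝ) ≤ Q * E0.card :=
    h6.trans (mul_le_mul_of_nonneg_right hQR2 (Nat.cast_nonneg _))
  exact_mod_cast h7

/-- From `StMain` to the statement on all sweeps. -/
theorem A_K (hMain : StMain) (hFL : StFL) : FINAL.StK := by
  obtain ⟨c, hc, n0, h⟩ := hMain
  refine ⟨c, hc, 1 + 16 * ((n0 : ℝ) + 1) ^ c, by positivity, ?_⟩
  intro ι _ _ K hinj hgp
  have : Nonempty ι := ⟨K.a 0⟩
  have hn1 : (1 : ℝ) ≤ Fintype.card ι := by exact_mod_cast Fintype.card_pos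
  rcases le_or_gt n0 (Fintype.card ι) with hn | hn
  · refine (h ι K hinj hgp hn).trans ?_
    have h5 : (0 : ℝ) ≤ (Fintype.card ι : ℝ) ^ ((4 : ℝ) / 3 - c) := by positivity
    have h6 : (0 : ℝ) ≤ 16 * ((n0 : ℝ) + 1) ^ c := by positivity
    nlinarith
  · obtain ⟨n, hnn⟩ : ∃ n : ℝ, n = (Fintype.card ι : ℝ) := ⟨_, rfl⟩
    rw [← hnn] at hn1 ⊢
    have hnR0 : (0 : ℝ) < n := by linarith
    have h5 := (hFL ι K hinj (range K.N) (Subset.refl _) false).1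
    rw [card_range, ← hnn] at h5
    have h6 : (((range K.N).image (K.ln false)).card : ℝ) ≤ n := by
      rw [hnn]; exact_mod_cast card_le_univ _
    have h7 : (K.N : ℝ) ^ 3 ≤ (16 * n ^ ((4 : ℝ) / 3)) ^ 3 := by
      have h8 : (n ^ ((4 : ℝ) / 3)) ^ 3 = n ^ 4 := by
        rw [← Real.rpow_natCast, ← Real.rpow_mul hnR0.le, ← Real.rpow_natCast]
        norm_num
      rw [mul_pow, h8]
      calc (K.N : ℝ) ^ 3 ≤ 4096 * n ^ 3 * (((range K.N).image (K.ln false)).card : ℝ) := h5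
        _ ≤ 4096 * n ^ 3 * n := mul_le_mul_of_nonneg_left h6 (by positivity)
        _ = 16 ^ 3 * n ^ 4 := by ring
    have h9 : (K.N : ℝ) ≤ 16 * n ^ ((4 : ℝ) / 3) :=
      le_of_pow_le_pow_left₀ (by norm_num) (by positivity) h7
    have hsplit : n ^ ((4 : ℝ) / 3) = n ^ c * n ^ ((4 : ℝ) / 3 - c) := by
      rw [← Real.rpow_add hnR0]; congr 1; ring
    have h10 : n ^ c ≤ ((n0 : ℝ) + 1) ^ c := by
      refine Real.rpow_le_rpow hnR0.le ?_ hc.le
      rw [hnn]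
      have : (Fintype.card ι : ℝ) ≤ n0 := by exact_mod_cast hn.le
      linarith
    have h11 : (0 : ℝ) ≤ n ^ ((4 : ℝ) / 3 - c) := by positivity
    calc (K.N : ℝ) ≤ 16 * n ^ ((4 : ℝ) / 3) := h9
      _ = 16 * n ^ c * n ^ ((4 : ℝ) / 3 - c) := by rw [hsplit]; ring
      _ ≤ (1 + 16 * ((n0 : ℝ) + 1) ^ c) * n ^ ((4 : ℝ) / 3 - c) := by
          apply mul_le_mul_of_nonneg_right _ h11
          linarith

end Pool.Agent.Work.MP_e17eac_co.BB
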