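import Pool.Agent.Work.MP_e17eac_co.Bd.B21

/-!
# Arbitrary sets, blueprint part B-5: assembly
-/

set_option autoImplicit false

namespace Pool.Agent.Work.MP_e17eac_co.BB

open Finset
open Pool.Agent.Work.MP_e17eac_co.DH
open Pool.Agent.Work.MP_e17eac_co.B1

namespace X5B5

variable {ι : Type} [Fintype ι] [DecidableEq ι]

/-- Few edges are bad for one of the indices. -/
theorem card_exists {τ : Type} (T : Finset τ) (E : Finset ℕ) (P : τ → ℕ → Prop)
    [∀ t, DecidablePred (P t)] [DecidablePred (fun i => ∃ t ∈ T, P t i)] (Y : ℝ)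
    (h : ∀ t ∈ T, ((E.filter (P t)).card : ℝ) ≤ Y) :
    ((E.filter (fun i => ∃ t ∈ T, P t i)).card : ℝ) ≤ T.card * Y := by
  classical
  have h1 : E.filter (fun i => ∃ t ∈ T, P t i) ⊆ T.biUnion (fun t => E.filter (P t)) := by
    intro i hi
    rw [mem_filter] at hi
    obtain ⟨hiE, t, ht, hp⟩ := hi
    exact mem_biUnion.2 ⟨t, ht, mem_filter.2 ⟨hiE, hp⟩⟩
  calc ((E.filter (fun i => ∃ t ∈ T, P t i)).card : ℝ) ≤
      ((T.biUnion (fun t => E.filter (P t))).card : ℝ) := by exact_mod_cast card_le_card h1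
    _ ≤ ∑ t ∈ T, ((E.filter (P t)).card : ℝ) := by exact_mod_cast card_biUnion_le
    _ ≤ ∑ _t ∈ T, Y := sum_le_sum h
    _ = T.card * Y := by rw [sum_const, nsmul_eq_mul]

/-- Range of the pairs of levels. -/
def Rg5 (e kp l X2 X4 : ℕ) (S : Finset ℕ) (x y : ℕ) : Prop :=
  x ∈ S ∧ X2 + k6 kp l + 1 ≤ y ∧ y < x ∧ x ≤ 2 * y ∧ x + kt e kp l ≤ X4

/-- Violation of (HU). -/
def VU (K : KSys ι) (r m : ℕ) (H s0 e0 : ℝ) (L : Lab) (e kp l x y i : ℕ) : Prop :=
  2 * (x - y) + kz e kp l ≤ x ∧ r * rd K r m H s0 e0 (4 * x - 1) (K.a i) * (e0 - s0) <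
    (L.h1 (2 * (x - y) + kz e kp l) i - L.h0 (2 * (x - y) + kz e kp l) i) *
      rd K r m H s0 e0 (4 * y + kb e kp l) (K.a i)

/-- Thin edges. -/
def VT (K : KSys ι) (r : ℕ) (L : Lab) (κ : ℕ → ι → ℕ) (E : Finset ℕ) (e kp l x y i : ℕ) : Prop :=
  ((unl K L κ E x y i).card : ℝ) * (r : ℝ) ^ (2 * x + 2 * y + k8 e kp l + 2) < Fintype.card ι

/-- Violation of (HL). -/
def VL (K : KSys ι) (r m : ℕ) (H s0 e0 : ℝ) (L : Lab) (e kp l : ℕ) (S : Finset ℕ)
    (x x' y i : ℕ) : Prop :=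
  x' ∈ S ∧ 4 * x' + (kp + k6 kp l) ≤ 4 * x - 1 ∧ ∃ z, 1 ≤ z ∧
    z + (4 * (x - x') + (k8 e kp l + 5)) = 2 * (x - y) ∧ z ≤ x' ∧
    r * (L.h1 z i - L.h0 z i) * rd K r m H s0 e0 (4 * y - 1) (K.a i) <
      rd K r m H s0 e0 (4 * x - 1) (K.a i) * (e0 - s0)

/-- The profile inequalities at one edge. -/
theorem prof_of (hNest : St5Nest) {K : KSys ι} {r m : ℕ} {H D s0 e0 : ℝ} {L : Lab}
    {κ : ℕ → ι → ℕ} {e kp l X2 X4 : ℕ} {S E : Finset ℕ} (hr : 2 ≤ r)
    (hF : Flw K r m H D s0 e0 L κ e kp l X2 X4 S E) {i : ℕ} (hi : i ∈ E)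
    (hpos : ∀ j, 1 ≤ j → j ≤ 4 * m → 0 < rd K r m H s0 e0 j (K.a i))
    (hanti : ∀ j j', 1 ≤ j → j ≤ j' → rd K r m H s0 e0 j' (K.a i) ≤ rd K r m H s0 e0 j (K.a i))
    (hU : ∀ x y, Rg5 e kp l X2 X4 S x y → ¬ VU K r m H s0 e0 L e kp l x y i)
    (hL : ∀ x x' y, Rg5 e kp l X2 X4 S x y → ¬ VL K r m H s0 e0 L e kp l S x x' y i) :
    Prof (Real.log r) (S : Set ℕ) X2 X4 m l (kp + k6 kp l) (k6 kp l + 1)
      (k8 e kp l + 5) (kb e kp l) (kt e kp l) (kz e kp l)
      (pf K r m H s0 e0 (K.a i)) (pg s0 e0 L i) := by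
  have hone := hF.one
  have hlab := hone.lab
  have hX2 := hone.lev.1
  have hX4 := hone.lev.2
  have hr1 : (1 : ℝ) < r := by exact_mod_cast (by omega : 1 < r)
  have hr0 : (0 : ℝ) < r := by linarith
  have hw : 0 < Real.log r := Real.log_pos hr1
  have hbase : 0 < e0 - s0 := by linarith [hlab.base]
  have hkt : kt e kp l = kb e kp l + 4 * k6 kp l + kp := rfl
  have hhull : ∀ z, 1 ≤ z → z ≤ m → 0 < (L.h1 z i - L.h0 z i) / (e0 - s0) ∧
      (L.h1 z i - L.h0 z i) / (e0 - s0) ≤ 1 := by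
    intro z h1 h2
    obtain ⟨a1, a2, a3, -⟩ := hlab.hull z h1 h2 i hi
    refine ⟨div_pos (by linarith) hbase, ?_⟩
    rw [div_le_one hbase]
    linarith
  have hfmono : ∀ j j', j ≤ j' → j' ≤ 4 * X4 →
      pf K r m H s0 e0 (K.a i) j ≤ pf K r m H s0 e0 (K.a i) j' := by
    intro j j' hj hj'
    unfold pf
    have h1 := hpos (max j' 1) (by omega) (by omega)
    have h2 := hanti (max j 1) (max j' 1) (by omega) (by omega)
    have := Real.log_le_log h1 h2
    linarith
  have hpf : ∀ j, 1 ≤ j → pf K r m H s0 e0 (K.a i) j = - Real.log (rd K r m H s0 e0 j (K.a i)) := by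
    intro j hj
    unfold pf
    rw [max_eq_left hj]
  have hpg : ∀ z, 1 ≤ z → pg s0 e0 L i z = - Real.log ((L.h1 z i - L.h0 z i) / (e0 - s0)) := by
    intro z hz
    unfold pg
    rw [if_neg (by omega)]
  refine ⟨hw, fun j j' _ hj hj' => hfmono j j' hj hj', ?_, ?_, ?_, ?_, ?_, ?_⟩
  · -- gmono
    intro z z' h1 hz hz'
    rw [hpg z' (h1.trans hz), hpg z h1]
    have h2 := hhull z' (h1.trans hz) hz'
    have h3 := hNest ι K r m D s0 e0 L E hlab z z' h1 hz hz' i hi
    have h4 : (L.h1 z' i - L.h0 z' i) / (e0 - s0) ≤ (L.h1 z i - L.h0 z i) / (e0 - s0) := by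
      apply div_le_div_of_nonneg_right _ hbase.le
      linarith
    have := Real.log_le_log h2.1 h4
    linarith
  · -- low
    intro z h0 hz
    rw [hpg z h0]
    have h2 := hhull z h0 hz
    have h3 := hlab.short z h0 hz i hi
    have h4 : (L.h1 z i - L.h0 z i) / (e0 - s0) * (r : ℝ) ^ (4 * z) ≤ r := by
      rw [div_mul_eq_mul_div, div_le_iff₀ hbase]
      exact h3
    have h5 := Real.log_le_log (by have := h2.1; positivity) h4
    rw [Real.log_mul h2.1.ne' (by positivity), Real.log_pow] at h5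
    push_cast at h5
    linarith
  · -- grow
    intro j hj hj'
    have h1 := hF.grow j hj (by omega) i hi
    have h2 := hanti (j + k6 kp l) (j + (k6 kp l + 1)) (by omega) (by omega)
    have h3 := hpos (j + (k6 kp l + 1)) (by omega) (by omega)
    have h3' := hpos (j + k6 kp l) (by omega) (by omega)
    have h4 : (r : ℝ) ^ 2 * rd K r m H s0 e0 (j + (k6 kp l + 1)) (K.a i) ≤
        rd K r m H s0 e0 j (K.a i) := le_trans (mul_le_mul_of_nonneg_left h2 (by positivity)) h1
    rw [hpf j (by omega), hpf _ (by omega)]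
    have h5 := Real.log_le_log (by positivity) h4
    rw [Real.log_mul (by positivity) h3.ne', Real.log_pow] at h5
    push_cast at h5
    linarith
  · -- gap
    intro v hv hv'
    obtain ⟨x, hx, h1, h2⟩ := hone.gap v hv hv'
    exact ⟨x, mem_coe.2 hx, h1, h2⟩
  · -- (HU)
    intro x hx y hy1 hy2 hy3 hxt hz
    have hx' : x ∈ S := mem_coe.1 hx
    have hrg : Rg5 e kp l X2 X4 S x y := ⟨hx', by omega, hy2, hy3, hxt⟩
    have h1 := hU x y hrg
    unfold VU at h1
    push Not at h1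
    have h2 := h1 hz
    have hkz : kz e kp l = k8 e kp l + k6 kp l + 5 := rfl
    rw [hpf _ (by omega), hpf _ (by omega), hpg _ (by omega)]
    have p1 := hpos (4 * x - 1) (by omega) (by omega)
    have p2 := hpos (4 * y + kb e kp l) (by omega) (by omega)
    have p3 := hhull (2 * (x - y) + kz e kp l) (by omega) (by omega)
    have h3 : (L.h1 (2 * (x - y) + kz e kp l) i - L.h0 (2 * (x - y) + kz e kp l) i) / (e0 - s0) *
        rd K r m H s0 e0 (4 * y + kb e kp l) (K.a i) ≤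
        r * rd K r m H s0 e0 (4 * x - 1) (K.a i) := by
      rw [div_mul_eq_mul_div, div_le_iff₀ hbase]
      exact h2
    have h4 := Real.log_le_log (mul_pos p3.1 p2) h3
    rw [Real.log_mul p3.1.ne' p2.ne', Real.log_mul hr0.ne' p1.ne'] at h4
    linarith
  · -- (HL)
    intro x hx x' hx' y hy1 hy2 hy3 hxt hk5 hk8 hz
    have hxS : x ∈ S := mem_coe.1 hx
    have hxS' : x' ∈ S := mem_coe.1 hx'
    have hrg : Rg5 e kp l X2 X4 S x y := ⟨hxS, by omega, hy2, hy3, hxt⟩
    have h0 : 1 ≤ 2 * (x - y) - (4 * (x - x') + (k8 e kp l + 5)) := by omega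
    have h1 := hL x x' y hrg
    unfold VL at h1
    push Not at h1
    have h2 := h1 hxS' hk5 _ h0 (by omega) hz
    rw [hpf _ (by omega), hpf _ (by omega), hpg _ (by omega)]
    have p1 := hpos (4 * x - 1) (by omega) (by omega)
    have p2 := hpos (4 * y - 1) (by omega) (by omega)
    have p3 := hhull (2 * (x - y) - (4 * (x - x') + (k8 e kp l + 5))) (by omega) (by omega)
    set z := 2 * (x - y) - (4 * (x - x') + (k8 e kp l + 5)) with hzdef
    have h3 : rd K r m H s0 e0 (4 * x - 1) (K.a i) ≤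
        r * ((L.h1 z i - L.h0 z i) / (e0 - s0)) * rd K r m H s0 e0 (4 * y - 1) (K.a i) := by
      have : r * ((L.h1 z i - L.h0 z i) / (e0 - s0)) * rd K r m H s0 e0 (4 * y - 1) (K.a i) =
          (r * (L.h1 z i - L.h0 z i) * rd K r m H s0 e0 (4 * y - 1) (K.a i)) / (e0 - s0) := by
        ring
      rw [this, le_div_iff₀ hbase]
      exact h2
    have h4 := Real.log_le_log p1 h3
    rw [Real.log_mul (mul_pos hr0 p3.1).ne' p2.ne', Real.log_mul hr0.ne' p3.1.ne'] at h4
    linarith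

end X5B5

open X5B5 in
open Classical in
/-- **B-5** -/
theorem I5_B5 (hNum : St5Num) (hInh : St5Inh) (hNest : St5Nest) (hHU : St5HU)
    (hThick : St5Thick) (hHL : St5HL) (hRad : StRad) (hBig : StOneBig) : StB5 := by
  intro m e kp l
  set k := 9 * (m + 1) ^ 3 + 1 with hk
  obtain ⟨cU, hU⟩ := hHU m e kp l k
  obtain ⟨cT, hT⟩ := hThick m e kp l k
  obtain ⟨cL, hL⟩ := hHL m e kp l k
  obtain ⟨cB, hB⟩ := hBig
  obtain ⟨cN, hN⟩ := hNum 4
  refine ⟨cU + cT + cL + cB + cN, 2, ?_⟩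
  intro ι _ _ K r H D s0 e0 L κ X2 X4 S E hBg hFlw
  have hmono : ∀ c, c ≤ cU + cT + cL + cB + cN → Big K r m H D c := by
    intro c hc
    have hD1 : (1 : ℝ) ≤ D := by linarith [hBg.D2]
    have hr1 : (1 : ℝ) ≤ r := by exact_mod_cast (by linarith [hBg.std.two] : 1 ≤ r)
    exact { hBg with
      Dr := (pow_le_pow_right₀ hD1 hc).trans hBg.Dr
      rn := (pow_le_pow_right₀ hr1 (by nlinarith)).trans hBg.rn }
  obtain ⟨hn0, hN0, hr2, -, -, hpow⟩ := hN ι K r m H D (hmono _ (by omega))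
  have hone := hFlw.one
  have hD2 := hBg.D2
  have hX2 := hone.lev.1
  have hX4 := hone.lev.2
  obtain ⟨-, hPS⟩ := hB ι K r m H D s0 e0 L κ e kp l X2 X4 S E (hmono _ (by omega)) hone
  have hNR : (0 : ℝ) < K.N := by exact_mod_cast hN0
  -- the bad edges
  let P : (ℕ × ℕ × ℕ) → ℕ → Prop := fun t i => Rg5 e kp l X2 X4 S t.1 t.2.2 ∧
    (VU K r m H s0 e0 L e kp l t.1 t.2.2 i ∨ VT K r L κ E e kp l t.1 t.2.2 i ∨
      (¬ VT K r L κ E e kp l t.1 t.2.2 i ∧ VL K r m H s0 e0 L e kp l S t.1 t.2.1 t.2.2 i))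
  let T : Finset (ℕ × ℕ × ℕ) := range (m + 1) ×ˢ range (m + 1) ×ˢ range (m + 1)
  have hTcard : T.card = (m + 1) ^ 3 := by
    simp only [T, card_product, card_range]
    ring
  have hDk : 0 < D ^ k := by positivity
  have hone3 : ∀ F : Finset ℕ, D ^ k * (F.card : ℝ) ≤ K.N → (F.card : ℝ) ≤ K.N / D ^ k := by
    intro F hF
    rw [le_div_iff₀ hDk, mul_comm]
    exact hF
  have hPt : ∀ t ∈ T, ((E.filter (P t)).card : ℝ) ≤ 3 * (K.N / D ^ k) := by
    rintro ⟨x, x', y⟩ -
    by_cases hrg : Rg5 e kp l X2 X4 S x y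
    · obtain ⟨hx, hy1, hy2, hy3, hxt⟩ := hrg
      have hsub : E.filter (P (x, x', y)) ⊆
          (E.filter (fun i => VU K r m H s0 e0 L e kp l x y i)) ∪
          ((E.filter (fun i => VT K r L κ E e kp l x y i)) ∪
          (E.filter (fun i => ¬ VT K r L κ E e kp l x y i ∧
            VL K r m H s0 e0 L e kp l S x x' y i))) := by
        intro i hi
        rw [mem_filter] at hi
        obtain ⟨hiE, -, h⟩ := hi
        rcases h with h | h | h
        · exact mem_union_left _ (mem_filter.2 ⟨hiE, h⟩)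
        · exact mem_union_right _ (mem_union_left _ (mem_filter.2 ⟨hiE, h⟩))
        · exact mem_union_right _ (mem_union_right _ (mem_filter.2 ⟨hiE, h⟩))
      have b1 : ((E.filter (fun i => VU K r m H s0 e0 L e kp l x y i)).card : ℝ) ≤
          K.N / D ^ k := by
        by_cases hz : 2 * (x - y) + kz e kp l ≤ x
        · refine hone3 _ (hU ι K r H D s0 e0 L κ X2 X4 S E (hmono _ (by omega)) hFlw x hx y hy1
            hy2 hy3 hxt _ rfl hz _ (filter_subset _ _) ?_)
          intro i hi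
          exact (mem_filter.1 hi).2.2
        · have : E.filter (fun i => VU K r m H s0 e0 L e kp l x y i) = ∅ := by
            rw [filter_eq_empty_iff]
            intro i _ h
            exact hz h.1
          rw [this, card_empty, Nat.cast_zero]
          positivity
      have b2 : ((E.filter (fun i => VT K r L κ E e kp l x y i)).card : ℝ) ≤ K.N / D ^ k := by
        refine hone3 _ (hT ι K r H D s0 e0 L κ X2 X4 S E (hmono _ (by omega)) hFlw x hx y hy1
          hy2 hy3 hxt _ (filter_subset _ _) ?_)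
        intro i hi
        exact (mem_filter.1 hi).2
      have b3 : ((E.filter (fun i => ¬ VT K r L κ E e kp l x y i ∧
            VL K r m H s0 e0 L e kp l S x x' y i)).card : ℝ) ≤ K.N / D ^ k := by
        by_cases hz : x' ∈ S ∧ 4 * x' + (kp + k6 kp l) ≤ 4 * x - 1 ∧ ∃ z, 1 ≤ z ∧
            z + (4 * (x - x') + (k8 e kp l + 5)) = 2 * (x - y) ∧ z ≤ x'
        · obtain ⟨hx', hk5, z, hz1, hz2, hz3⟩ := hz
          refine hone3 _ (hL ι K r H D s0 e0 L κ X2 X4 S E (hmono _ (by omega)) hFlw x hx x' hx' y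
            hy1 hy2 hy3 hxt hk5 z hz1 hz2 hz3 _ (filter_subset _ _) ?_ ?_)
          · intro i hi
            have := (mem_filter.1 hi).2.1
            unfold VT at this
            push Not at this
            exact this
          · intro i hi
            obtain ⟨-, -, -, -, z', hz1', hz2', hz3', h⟩ := mem_filter.1 hi
            have : z' = z := by omega
            rw [this] at h
            exact h
        · have : E.filter (fun i => ¬ VT K r L κ E e kp l x y i ∧
              VL K r m H s0 e0 L e kp l S x x' y i) = ∅ := by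
            rw [filter_eq_empty_iff]
            rintro i - ⟨-, h1, h2, z, h3, h4, h5, -⟩
            exact hz ⟨h1, h2, z, h3, h4, h5⟩
          rw [this, card_empty, Nat.cast_zero]
          positivity
      have h1 : ((E.filter (P (x, x', y))).card : ℝ) ≤
          ((E.filter (fun i => VU K r m H s0 e0 L e kp l x y i)).card : ℝ) +
          (((E.filter (fun i => VT K r L κ E e kp l x y i)).card : ℝ) +
          ((E.filter (fun i => ¬ VT K r L κ E e kp l x y i ∧
            VL K r m H s0 e0 L e kp l S x x' y i)).card : ℝ)) := by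
        have := (card_le_card hsub).trans ((card_union_le _ _).trans
          (Nat.add_le_add_left (card_union_le _ _) _))
        exact_mod_cast this
      linarith
    · have : E.filter (P (x, x', y)) = ∅ := by
        rw [filter_eq_empty_iff]
        intro i _ h
        exact hrg h.1
      rw [this, card_empty, Nat.cast_zero]
      positivity
  have hbad := card_exists T E P (3 * (K.N / D ^ k)) hPt
  set E' := E.filter (fun i => ¬ ∃ t ∈ T, P t i) with hE'
  have hsplit : (E.filter (fun i => ∃ t ∈ T, P t i)).card + E'.card = E.card :=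
    card_filter_add_card_filter_not _
  have hcardE := hone.card
  have hDk2 : 2 * D * (3 * ((m : ℝ) + 1) ^ 3) ≤ D ^ k := by
    have h1 : D ^ k = D ^ (9 * (m + 1) ^ 3) * D := by rw [hk, pow_succ]
    have h2 : ((9 * (m + 1) ^ 3 : ℕ) : ℝ) ≤ (2 : ℝ) ^ (9 * (m + 1) ^ 3) := by
      exact_mod_cast Nat.lt_two_pow_self.le
    have h3 : (2 : ℝ) ^ (9 * (m + 1) ^ 3) ≤ D ^ (9 * (m + 1) ^ 3) :=
      pow_le_pow_left₀ (by norm_num) hD2 _
    push_cast at h2
    rw [h1]
    have h4 : (0 : ℝ) ≤ ((m : ℝ) + 1) ^ 3 := by positivity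
    nlinarith
  have hhalf : 2 * D * ((E.filter (fun i => ∃ t ∈ T, P t i)).card : ℝ) ≤ K.N := by
    have h1 : (T.card : ℝ) = ((m : ℝ) + 1) ^ 3 := by rw [hTcard]; push_cast; ring
    rw [h1] at hbad
    calc 2 * D * ((E.filter (fun i => ∃ t ∈ T, P t i)).card : ℝ)
        ≤ 2 * D * (((m : ℝ) + 1) ^ 3 * (3 * (K.N / D ^ k))) := by gcongr
      _ = (2 * D * (3 * ((m : ℝ) + 1) ^ 3)) * (K.N / D ^ k) := by ring
      _ ≤ D ^ k * (K.N / D ^ k) := by gcongr
      _ = K.N := by field_simp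
  have hNE' : (K.N : ℝ) ≤ D ^ 2 * (E'.card : ℝ) := by
    have h1 : ((E.filter (fun i => ∃ t ∈ T, P t i)).card : ℝ) + E'.card = E.card := by
      exact_mod_cast hsplit
    have h2 : (K.N : ℝ) ≤ 2 * D * E'.card := by nlinarith
    have h3 : 2 * D * (E'.card : ℝ) ≤ D ^ 2 * E'.card := by
      have : 2 * D ≤ D ^ 2 := by nlinarith
      gcongr
    linarith
  have hFlw' : Flw K r m H (D ^ 2) s0 e0 L κ e kp l X2 X4 S E' :=
    hInh ι K r m H D (D ^ 2) s0 e0 L κ e kp l X2 X4 S E E' (by linarith) (by nlinarith) hFlw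
      (filter_subset _ _) hNE'
  refine ⟨E', filter_subset _ _, hFlw', ?_⟩
  intro i hi
  have hi' := mem_filter.1 hi
  have hall : ∀ x x' y, x ≤ m → x' ≤ m → y ≤ m → ¬ P (x, x', y) i := by
    intro x x' y hx hx' hy hP
    exact hi'.2 ⟨(x, x', y), by simp only [T, mem_product, mem_range]; omega, hP⟩
  have hSm : ∀ x ∈ S, x ≤ m := by
    intro x hx
    have := (mem_Icc.1 (hone.sub hx)).2
    omega
  refine prof_of hNest hr2 hFlw' hi ?_ ?_ ?_ ?_
  · intro j hj1 hj2
    have h1 := hRad ι K (PS K r m H) s0 e0 r hone.lab.base (by omega) j (hPS j hj1)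
    exact h1.2.2.2.2.2 hBg.std.inj (hpow j (by omega)).1 (K.a i)
  · intro j j' hj hjj'
    have h1 := hRad ι K (PS K r m H) s0 e0 r hone.lab.base (by omega) j (hPS j hj)
    exact h1.2.2.2.1 j' hjj' (K.a i)
  · intro x y hrg hV
    have hx := hSm x hrg.1
    exact hall x x y hx hx (by have := hrg.2.2.1; omega) ⟨hrg, Or.inl hV⟩
  · intro x x' y hrg hV
    have hx := hSm x hrg.1
    have hx' := hSm x' hV.1
    have hy : y ≤ m := by have := hrg.2.2.1; omega
    by_cases hT' : VT K r L κ E e kp l x y i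
    · exact hall x x' y hx hx' hy ⟨hrg, Or.inr (Or.inl hT')⟩
    · exact hall x x' y hx hx' hy ⟨hrg, Or.inr (Or.inr ⟨hT', hV⟩)⟩

end Pool.Agent.Work.MP_e17eac_co.BB
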