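import Pool.Agent.Work.MP_e17eac_co.Bd.B21

/-!
# Arbitrary sets, blueprint part B-5: (HL)
-/

set_option autoImplicit false

namespace Pool.Agent.Work.MP_e17eac_co.BB

open Finset
open Pool.Agent.Work.MP_e17eac_co.DH
open Pool.Agent.Work.MP_e17eac_co.B1

namespace X5HL

/-- The numerical contradiction. -/
theorem num {n R D M : ℝ} {d x x' y z k8 : ℕ} (hn : 0 < n) (hR : 2 ≤ R)
    (hM : M * R ^ (2 * x + 2 * y + k8 + 2) = n) (hyx : y < x) (hx' : x' < x)
    (hz : z + (4 * (x - x') + (k8 + 5)) = 2 * (x - y)) (hDR : D ^ d ≤ R)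
    (hmain : M * R ^ (4 * x') ≤ D ^ d * n * R ^ z) : False := by
  have hR0 : 0 < R := by linarith
  have e : 4 * x' = z + (2 * x + 2 * y + k8 + 2) + 3 := by omega
  have h1 : n * R ^ (4 * x') ≤ D ^ d * n * R ^ (z + (2 * x + 2 * y + k8 + 2)) := by
    calc n * R ^ (4 * x') = M * R ^ (4 * x') * R ^ (2 * x + 2 * y + k8 + 2) := by
          rw [← hM]; ring
      _ ≤ D ^ d * n * R ^ z * R ^ (2 * x + 2 * y + k8 + 2) :=
          mul_le_mul_of_nonneg_right hmain (by positivity)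
      _ = _ := by rw [pow_add R z]; ring
  set P := R ^ (z + (2 * x + 2 * y + k8 + 2)) with hP
  have hP0 : 0 < P := by positivity
  have h2 : n * P * R ^ 3 ≤ n * P * D ^ d := by
    have : R ^ (4 * x') = P * R ^ 3 := by rw [e, pow_add]
    rw [this] at h1
    nlinarith
  have h3 : R ^ 3 ≤ D ^ d := le_of_mul_le_mul_left h2 (by positivity)
  have h4 : R ^ 3 = R * R * R := by ring
  nlinarith

end X5HL

open X5HL in
open Classical in
/-- **(HL)** -/
theorem I5_HL (hNum : St5Num) (hHeavy : St5Heavy) (hLight : St5Light) (hAVP : St5AVP)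
    (hGeoA : St5GeoA) (hGeoB : St5GeoB) (hRad : StRad) (hBig : StOneBig) : St5HL := by
  intro m e kp l k
  obtain ⟨cH, dH, hHv⟩ := hHeavy (k + 1)
  obtain ⟨cL, dL, hLt⟩ := hLight (k + 1)
  obtain ⟨cA, dA, hAV⟩ := hAVP (k + 2 + dL + dH)
  obtain ⟨cN, hN⟩ := hNum (dA + 10)
  obtain ⟨cB, hB⟩ := hBig
  refine ⟨cH + cL + cA + cN + cB, ?_⟩
  intro ι _ _ K r H D s0 e0 L κ X2 X4 S E hbg hFlw x hx x' hx' y hy1 hyx hx2y hxt hxx z hz1 hz
    hzx' E1 hE1 hthick hviol
  by_contra hcon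
  push Not at hcon
  have hmono : ∀ c, c ≤ cH + cL + cA + cN + cB → Big K r m H D c := by
    intro c hc
    have hD1 : (1 : ℝ) ≤ D := by linarith [hbg.D2]
    have hr1 : (1 : ℝ) ≤ r := by exact_mod_cast (by linarith [hbg.std.two] : 1 ≤ r)
    exact { hbg with
      Dr := (pow_le_pow_right₀ hD1 hc).trans hbg.Dr
      rn := (pow_le_pow_right₀ hr1 (by nlinarith)).trans hbg.rn }
  obtain ⟨hn0, hN0, hr2, hDr, -, hrn⟩ := hN ι K r m H D (hmono _ (by omega))
  have hone := hFlw.one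
  have hlab := hone.lab
  have hxS := mem_Icc.1 (hone.sub hx)
  have hxS' := mem_Icc.1 (hone.sub hx')
  have hX2 := hone.lev.1
  have hX4 := hone.lev.2
  have hxm : x ≤ m := by omega
  have hx1 : 1 ≤ x := by omega
  have hxlt : x' < x := by omega
  have hxm' : x' ≤ m := by omega
  have hzm : z ≤ m := by omega
  have hD2 := hbg.D2
  have hD1 : (1 : ℝ) ≤ D := by linarith
  have hD0 : (0 : ℝ) < D := by linarith
  have hrR2 : (2 : ℝ) ≤ r := by exact_mod_cast hr2
  have hrR : (1 : ℝ) ≤ r := by linarith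
  have hbase := hlab.base
  have hhash := hone.hash x' hxS'.1 hxS'.2
  have hk0 : (0 : ℝ) < D ^ k := by positivity
  -- Cleaning 1
  set Eh := E1.filter (fun i => D ^ dH * (r : ℝ) ^ (x' - z) <
    (((E.filter (fun j => κ x' (K.a j) = κ x' (K.a i) ∧
    cell K r z j = cell K r z i)).image (cell K r x')).card : ℝ)) with hEh
  set Eg := E1 \ Eh with hEg
  have hEhE1 : Eh ⊆ E1 := filter_subset _ _
  have hEgE1 : Eg ⊆ E1 := sdiff_subset
  have hcardh : D ^ (k + 1) * (Eh.card : ℝ) ≤ K.N :=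
    hHv ι K r m H D (hmono _ (by omega)) z x' hzx' hxm' (κ x') E hone.hyg hhash Eh
      (hEhE1.trans hE1) (fun i hi => (mem_filter.1 hi).2)
  have hcards : (Eh.card : ℝ) + Eg.card = E1.card := by
    have := card_sdiff_add_card_eq_card hEhE1
    rw [← hEg] at this
    exact_mod_cast (by omega : Eh.card + Eg.card = E1.card)
  have hEh2 : 2 * (Eh.card : ℝ) ≤ E1.card := by
    have h1 : D ^ k * (D * (Eh.card : ℝ)) < D ^ k * (E1.card : ℝ) := by
      have : D ^ k * (D * (Eh.card : ℝ)) = D ^ (k + 1) * (Eh.card : ℝ) := by rw [pow_succ]; ring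
      rw [this]
      exact lt_of_le_of_lt hcardh hcon
    have h2 := lt_of_mul_lt_mul_left h1 hk0.le
    have h3 : (0 : ℝ) ≤ Eh.card := Nat.cast_nonneg _
    nlinarith
  have hNg : (K.N : ℝ) ≤ D ^ (k + 1) * (Eg.card : ℝ) := by
    have h1 : (E1.card : ℝ) ≤ 2 * Eg.card := by linarith
    have h3 : (0 : ℝ) ≤ Eg.card := Nat.cast_nonneg _
    calc (K.N : ℝ) ≤ D ^ k * (E1.card : ℝ) := hcon.le
      _ ≤ D ^ k * (D * Eg.card) := by
          apply mul_le_mul_of_nonneg_left _ hk0.le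
          nlinarith
      _ = _ := by rw [pow_succ]; ring
  -- Cleaning 2
  obtain ⟨E2, hE2g, hE2c, hE2⟩ := hLt ι K r m H D (hmono _ (by omega)) z hzm Eg
    (fun i hi => hone.hyg i (hE1 (hEgE1 hi))) hNg
  have hE2E1 : E2 ⊆ E1 := hE2g.trans hEgE1
  have hE2E : E2 ⊆ E := hE2E1.trans hE1
  have hN2 : (K.N : ℝ) ≤ D ^ (k + 2 + dL + dH) * (E2.card : ℝ) := by
    have h1 : (Eg.card : ℝ) ≤ 2 * E2.card := by exact_mod_cast hE2c
    have h3 : (0 : ℝ) ≤ E2.card := Nat.cast_nonneg _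
    calc (K.N : ℝ) ≤ D ^ (k + 1) * (Eg.card : ℝ) := hNg
      _ ≤ D ^ (k + 1) * (D * E2.card) := by
          apply mul_le_mul_of_nonneg_left _ (by positivity)
          nlinarith
      _ = D ^ (k + 2) * E2.card := by rw [pow_succ D (k + 1)]; ring
      _ ≤ _ := by
          apply mul_le_mul_of_nonneg_right _ h3
          exact pow_le_pow_right₀ hD1 (by omega)
  -- radii
  have hbigj : ∀ j : ℕ, 1 ≤ j → Fintype.card ι < (PS K r m H).card * r ^ j :=
    (hB ι K r m H D s0 e0 L κ e kp l X2 X4 S E (hmono _ (by omega)) hone).2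
  have hradpos : ∀ p, 0 < rd K r m H s0 e0 (4 * x - 1) p := by
    intro p
    have h1 := (hRad ι K (PS K r m H) s0 e0 r hbase (by omega) (4 * x - 1)
      (hbigj _ (by omega))).2.2.2.2.2 hbg.std.inj
    refine h1 ?_ p
    refine (hrn (4 * x - 1) ?_).1
    have : 4 * m ≤ (dA + 10) * (m + 1) := by nlinarith
    omega
  have hradmono : ∀ p, rd K r m H s0 e0 (4 * x - 1) p ≤
      rd K r m H s0 e0 (4 * x' + kp + k6 kp l) p := by
    intro p
    exact (hRad ι K (PS K r m H) s0 e0 r hbase (by omega) (4 * x' + kp + k6 kp l)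
      (hbigj _ (by omega))).2.2.2.1 (4 * x - 1) (by omega) p
  have hdel : ∀ j ∈ E, 2 * D * rd K r m H s0 e0 (4 * x - 1) (K.a j) < L.del x' j := by
    intro j hj
    have h1 : rd K r m H s0 e0 (4 * x' + kp) (K.a j) ≤ r * L.del x' j := hone.low x' hx' j hj
    have h2 := hFlw.grow (4 * x' + kp) (by omega) (by omega) j hj
    have h3 := hradmono (K.a j)
    have h4 := hradpos (K.a j)
    set A := rd K r m H s0 e0 (4 * x - 1) (K.a j)
    have h5 : (r : ℝ) * (r * A) ≤ r * L.del x' j := by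
      calc (r : ℝ) * (r * A) = (r : ℝ) ^ 2 * A := by ring
        _ ≤ (r : ℝ) ^ 2 * rd K r m H s0 e0 (4 * x' + kp + k6 kp l) (K.a j) :=
            mul_le_mul_of_nonneg_left h3 (by positivity)
        _ ≤ _ := h2.trans h1
    have h6 : (r : ℝ) * A ≤ L.del x' j := le_of_mul_le_mul_left h5 (by linarith)
    have h7 : 2 * D < r := by
      have a1 : D ^ 3 ≤ D ^ (dA + 10) := pow_le_pow_right₀ hD1 (by omega)
      have a2 : 2 * D < D ^ 3 := by
        have : D ^ 3 = D * D * D := by ring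
        nlinarith
      linarith
    have h8 : 2 * D * A < r * A := mul_lt_mul_of_pos_right h7 h4
    linarith
  -- (AV), (P2)
  have hmain := hAV ι K r m H D (hmono _ (by omega)) z x' hzx' hxm' (κ x') E2
    (fun i hi => hone.hyg i (hE2E hi)) (fun i hi => hhash.edge i (hE2E hi)) hN2 ?_ ?_
    (fun i => RB K r m H L z i (2 * D * rd K r m H s0 e0 (4 * x - 1) (K.a i)))
    ((Fintype.card ι : ℝ) / (r : ℝ) ^ (2 * x + 2 * y + k8 e kp l + 2)) ?_ ?_
  · refine num (n := (Fintype.card ι : ℝ)) (R := (r : ℝ)) (D := D) (d := dA) (x := x) (x' := x')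
      (y := y) (z := z) (k8 := k8 e kp l) (by exact_mod_cast hn0) hrR2 ?_ hyx hxlt hz
      ((pow_le_pow_right₀ hD1 (by omega)).trans hDr) hmain
    field_simp
  · intro i hi
    refine (hE2 i hi).trans ?_
    have h1 : D ^ dL ≤ D ^ (k + 2 + dL + dH) := pow_le_pow_right₀ hD1 (by omega)
    gcongr
  · intro i hi
    have hig := hE2g hi
    rw [hEg, mem_sdiff] at hig
    have hnot : ¬ (D ^ dH * (r : ℝ) ^ (x' - z) <
        (((E.filter (fun j => κ x' (K.a j) = κ x' (K.a i) ∧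
        cell K r z j = cell K r z i)).image (cell K r x')).card : ℝ)) := by
      intro hlt
      exact hig.2 (mem_filter.2 ⟨hig.1, hlt⟩)
    push Not at hnot
    have h1 : (((E2.filter (fun j => κ x' (K.a j) = κ x' (K.a i) ∧
        cell K r z j = cell K r z i)).image (cell K r x')).card : ℝ) ≤
        (((E.filter (fun j => κ x' (K.a j) = κ x' (K.a i) ∧
        cell K r z j = cell K r z i)).image (cell K r x')).card : ℝ) := by
      exact_mod_cast card_le_card (image_subset_image (filter_subset_filter _ hE2E))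
    have h2 : D ^ dH ≤ D ^ (k + 2 + dL + dH) := pow_le_pow_right₀ hD1 (by omega)
    calc _ ≤ _ := h1
      _ ≤ D ^ dH * (r : ℝ) ^ (x' - z) := hnot
      _ ≤ _ := mul_le_mul_of_nonneg_right h2 (by positivity)
  · intro i hi
    refine ⟨?_, filter_subset _ _⟩
    have hiE := hE2E hi
    have hsub := hGeoA ι K r m H D s0 e0 L κ e kp l X2 X4 S E (by omega) hD2 hone x y z hxS.1
      hxS.2 (by omega) (by omega) hz1 (by omega) i hiE (hradpos (K.a i)).le
      (hviol i (hE2E1 hi)).le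
    have h1 : ((unl K L κ E x y i).card : ℝ) ≤
        ((RB K r m H L z i (2 * D * rd K r m H s0 e0 (4 * x - 1) (K.a i))).card : ℝ) := by
      exact_mod_cast card_le_card hsub
    refine le_trans ?_ h1
    rw [div_le_iff₀ (by positivity)]
    exact hthick i (hE2E1 hi)
  · intro i hi j hj hij hcij
    exact hGeoB ι K r m H D s0 e0 L E hlab x' z hz1 hzx' hxm' i (hE2E hi) j (hE2E hj) hij hcij
      _ (by rw [← hij]; exact hdel j (hE2E hj))

end Pool.Agent.Work.MP_e17eac_co.BB
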