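import Pool.Agent.Work.MP_e17eac_co.Bd.B21

/-!
# Arbitrary sets, blueprint part B-5: (HU)
-/

set_option autoImplicit false

namespace Pool.Agent.Work.MP_e17eac_co.BB

open Finset
open Pool.Agent.Work.MP_e17eac_co.DH
open Pool.Agent.Work.MP_e17eac_co.B1

namespace X5HU

/-- If `g` is determined by `f` on `E`, then `g` has at most as many values. -/
theorem card_image_factor {α β γ : Type} [DecidableEq β] [DecidableEq γ] (E : Finset α)
    (f : α → β) (g : α → γ) (h : ∀ i ∈ E, ∀ j ∈ E, f i = f j → g i = g j) :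
    (E.image g).card ≤ (E.image f).card := by
  classical
  rcases E.eq_empty_or_nonempty with rfl | ⟨i0, _⟩
  · simp
  have : Nonempty α := ⟨i0⟩
  have key : ∀ c ∈ E.image g, ∃ i ∈ E, g i = c := by
    intro c hc
    obtain ⟨i, hi, rfl⟩ := mem_image.1 hc
    exact ⟨i, hi, rfl⟩
  choose! s hs using key
  refine card_le_card_of_injOn (fun c => f (s c)) ?_ ?_
  · intro c hc
    exact mem_coe.2 (mem_image_of_mem f (hs c (mem_coe.1 hc)).1)
  · intro c hc c' hc' he
    have h1 := hs c (mem_coe.1 hc)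
    have h2 := hs c' (mem_coe.1 hc')
    rw [← h1.2, ← h2.2]
    exact h _ h1.1 _ h2.1 he

theorem card_image_mul {α β γ : Type} [DecidableEq β] [DecidableEq γ] (E : Finset α)
    (f : α → β) (g : α → γ) (D : ℝ)
    (h : ∀ w ∈ E.image g, (((E.filter (fun j => g j = w)).image f).card : ℝ) ≤ D) :
    ((E.image f).card : ℝ) ≤ D * (E.image g).card := by
  classical
  have h1 : E.image f ⊆ (E.image g).biUnion (fun w => (E.filter (fun j => g j = w)).image f) := by
    intro b hb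
    obtain ⟨i, hi, rfl⟩ := mem_image.1 hb
    exact mem_biUnion.2 ⟨g i, mem_image_of_mem g hi, mem_image_of_mem f (mem_filter.2 ⟨hi, rfl⟩)⟩
  calc ((E.image f).card : ℝ) ≤
      (((E.image g).biUnion (fun w => (E.filter (fun j => g j = w)).image f)).card : ℝ) := by
        exact_mod_cast card_le_card h1
    _ ≤ ∑ w ∈ E.image g, (((E.filter (fun j => g j = w)).image f).card : ℝ) := by
        exact_mod_cast card_biUnion_le
    _ ≤ ∑ _w ∈ E.image g, D := sum_le_sum h
    _ = D * (E.image g).card := by rw [sum_const, nsmul_eq_mul, mul_comm]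

/-- The numerical contradiction. -/
theorem num {n R D H C2 P U A M B : ℝ} {c c1 c2 x y z k8 k6 : ℕ} (hn : 0 < n) (hR : 1 ≤ R)
    (hD : 2 ≤ D) (hH0 : 0 ≤ H) (hH : H ≤ D) (hC2 : 0 ≤ C2) (hC2D : C2 ≤ D ^ c2)
    (hP : n * R ^ x < D ^ c1 * P) (hP2 : P ≤ C2 * n * R ^ x) (hP0 : 0 ≤ P)
    (hU : U = D * R ^ (3 * x + 2 * y + k8)) (hA : A * R ^ (2 * x + 2 * y + k8 + 4) = n)
    (hM : M * R ^ (4 * y) = n * R ^ (k6 + 1)) (hB : B = 2 * H * R ^ (x - z))
    (hz : z = 2 * (x - y) + (k8 + k6 + 5)) (hzx : z ≤ x) (hyx : y < x)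
    (hc : 2 * c1 + c2 + 4 ≤ c) (hDR : D ^ c ≤ R)
    (hmain : P ^ 2 ≤ U * (P * A + n * M * B)) : False := by
  have hR0 : 0 < R := by linarith
  have hD0 : 0 < D := by linarith
  have hD1 : 1 ≤ D := by linarith
  have e1 : R ^ (3 * x + 2 * y + k8) * A * R ^ 4 = n * R ^ x := by
    have : R ^ (3 * x + 2 * y + k8) * R ^ 4 = R ^ x * R ^ (2 * x + 2 * y + k8 + 4) := by
      rw [← pow_add, ← pow_add]
      congr 1
      ring
    calc R ^ (3 * x + 2 * y + k8) * A * R ^ 4 = A * (R ^ (3 * x + 2 * y + k8) * R ^ 4) := by ring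
      _ = (A * R ^ (2 * x + 2 * y + k8 + 4)) * R ^ x := by rw [this]; ring
      _ = n * R ^ x := by rw [hA]
  have e2 : R ^ (3 * x + 2 * y + k8) * M * R ^ (x - z) * R ^ 4 = n * R ^ (2 * x) := by
    have h1 : R ^ (3 * x + 2 * y + k8) * R ^ (k6 + 1) * R ^ (x - z) * R ^ 4 =
        R ^ (2 * x) * R ^ (4 * y) := by
      rw [← pow_add, ← pow_add, ← pow_add, ← pow_add]
      congr 1
      omega
    have h2 : R ^ (4 * y) ≠ 0 := by positivity
    have h3 : (R ^ (3 * x + 2 * y + k8) * M * R ^ (x - z) * R ^ 4) * R ^ (4 * y) =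
        (n * R ^ (2 * x)) * R ^ (4 * y) := by
      calc (R ^ (3 * x + 2 * y + k8) * M * R ^ (x - z) * R ^ 4) * R ^ (4 * y)
          = (M * R ^ (4 * y)) * (R ^ (3 * x + 2 * y + k8) * R ^ (x - z) * R ^ 4) := by ring
        _ = n * (R ^ (3 * x + 2 * y + k8) * R ^ (k6 + 1) * R ^ (x - z) * R ^ 4) := by
            rw [hM]; ring
        _ = (n * R ^ (2 * x)) * R ^ (4 * y) := by rw [h1]; ring
    exact mul_right_cancel₀ h2 h3
  have f1 : P ^ 2 * R ^ 4 ≤ D * (P * (n * R ^ x) + 2 * H * n * (n * R ^ (2 * x))) := by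
    calc P ^ 2 * R ^ 4 ≤ (U * (P * A + n * M * B)) * R ^ 4 := by gcongr
      _ = D * (P * (R ^ (3 * x + 2 * y + k8) * A * R ^ 4) +
          2 * H * n * (R ^ (3 * x + 2 * y + k8) * M * R ^ (x - z) * R ^ 4)) := by
            rw [hU, hB]; ring
      _ = _ := by rw [e1, e2]
  have f2 : P * (n * R ^ x) + 2 * H * n * (n * R ^ (2 * x)) ≤
      (C2 + 2 * H) * (n ^ 2 * R ^ (2 * x)) := by
    have : P * (n * R ^ x) ≤ C2 * n * R ^ x * (n * R ^ x) := by gcongr
    have e : C2 * n * R ^ x * (n * R ^ x) = C2 * (n ^ 2 * R ^ (2 * x)) := by ring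
    nlinarith
  have f3 : (n * R ^ x) ^ 2 < D ^ (2 * c1) * P ^ 2 := by
    have h0 : 0 < n * R ^ x := by positivity
    calc (n * R ^ x) ^ 2 < (D ^ c1 * P) ^ 2 := by
          apply pow_lt_pow_left₀ hP h0.le (by norm_num)
      _ = D ^ (2 * c1) * P ^ 2 := by rw [mul_pow, ← pow_mul, mul_comm c1 2]
  have hX : 0 < n ^ 2 * R ^ (2 * x) := by positivity
  have f4 : (n ^ 2 * R ^ (2 * x)) * R ^ 4 <
      (D ^ (2 * c1) * D * (C2 + 2 * H)) * (n ^ 2 * R ^ (2 * x)) := by
    have h1 : (n * R ^ x) ^ 2 = n ^ 2 * R ^ (2 * x) := by rw [mul_pow, ← pow_mul, mul_comm x 2]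
    rw [h1] at f3
    calc (n ^ 2 * R ^ (2 * x)) * R ^ 4 < (D ^ (2 * c1) * P ^ 2) * R ^ 4 := by gcongr
      _ = D ^ (2 * c1) * (P ^ 2 * R ^ 4) := by ring
      _ ≤ D ^ (2 * c1) * (D * ((C2 + 2 * H) * (n ^ 2 * R ^ (2 * x)))) :=
          mul_le_mul_of_nonneg_left (f1.trans (mul_le_mul_of_nonneg_left f2 hD0.le))
            (by positivity)
      _ = _ := by ring
  have f5 : R ^ 4 < D ^ (2 * c1) * D * (C2 + 2 * H) := by
    have h1 : R ^ 4 * (n ^ 2 * R ^ (2 * x)) <
        (D ^ (2 * c1) * D * (C2 + 2 * H)) * (n ^ 2 * R ^ (2 * x)) := by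
      rw [mul_comm (R ^ 4)]; exact f4
    exact lt_of_mul_lt_mul_right h1 hX.le
  have f6 : C2 + 2 * H ≤ D ^ (c2 + 3) := by
    have h1 : D ^ c2 ≤ D ^ (c2 + 2) := pow_le_pow_right₀ hD1 (by omega)
    have h2 : D ^ 2 ≤ D ^ (c2 + 2) := pow_le_pow_right₀ hD1 (by omega)
    have h3 : 2 * H ≤ D ^ 2 := by nlinarith
    have h4 : D ^ (c2 + 3) = D ^ (c2 + 2) * D := by rw [← pow_succ]
    have h5 : 0 < D ^ (c2 + 2) := by positivity
    nlinarith
  have f7 : D ^ (2 * c1) * D * (C2 + 2 * H) ≤ D ^ c := by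
    calc D ^ (2 * c1) * D * (C2 + 2 * H) ≤ D ^ (2 * c1) * D * D ^ (c2 + 3) := by gcongr
      _ = D ^ (2 * c1 + c2 + 4) := by
          rw [← pow_succ, ← pow_add]
          congr 1
          ring
      _ ≤ D ^ c := pow_le_pow_right₀ hD1 hc
  have f8 : R ≤ R ^ 4 := by
    calc R = R ^ 1 := (pow_one R).symm
      _ ≤ R ^ 4 := pow_le_pow_right₀ hR (by norm_num)
  linarith

end X5HU

open X5HU in
open Classical in
/-- **(HU)** -/
theorem I5_HU (hTrip : St5Trip) (hNum : St5Num) (hFew : St5Few) (hBall : St5Ball)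
    (hFar : St5Far) (hT2 : B1.StT2c) (hDist : StDist) : St5HU := by
  intro m e kp l k
  obtain ⟨C2, hC2, hT2'⟩ := hT2
  obtain ⟨c2, hc2⟩ := pow_unbounded_of_one_lt C2 (by norm_num : (1 : ℝ) < 2)
  obtain ⟨cF, c1, hF⟩ := hFew k
  obtain ⟨cB, hB⟩ := hBall kp l
  obtain ⟨cN, hN⟩ := hNum (2 * c1 + c2 + 10)
  refine ⟨cF + cB + cN, ?_⟩
  intro ι _ _ K r H D s0 e0 L κ X2 X4 S E hBig hFlw x hx y hy1 hyx hx2y hxt z hz hzx E1 hE1 hviol
  by_contra hcon
  push Not at hcon
  have hmono : ∀ c, c ≤ cF + cB + cN → Big K r m H D c := by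
    intro c hc
    have hD1 : (1 : ℝ) ≤ D := by linarith [hBig.D2]
    have hr1 : (1 : ℝ) ≤ r := by exact_mod_cast (by linarith [hBig.std.two] : 1 ≤ r)
    exact { hBig with
      Dr := (pow_le_pow_right₀ hD1 hc).trans hBig.Dr
      rn := (pow_le_pow_right₀ hr1 (by nlinarith)).trans hBig.rn }
  obtain ⟨hn0, hN0, hr2, hDr, -, -⟩ := hN ι K r m H D (hmono _ (by omega))
  have hone := hFlw.one
  have hlab := hone.lab
  have hxS := mem_Icc.1 (hone.sub hx)
  have hX2 := hone.lev.1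
  have hX4 := hone.lev.2
  have hxm : x ≤ m := by omega
  have hx1 : 1 ≤ x := by omega
  have hkz : kz e kp l = k8 e kp l + k6 kp l + 5 := rfl
  have hz1 : 1 ≤ z := by omega
  have hD2 := hBig.D2
  have hH0 : (0 : ℝ) ≤ H := by linarith [hBig.std.one]
  have hrR : (1 : ℝ) ≤ r := by exact_mod_cast (by omega : 1 ≤ r)
  have hbase := hlab.base
  -- pairs (label, line)
  set P1 : Finset (ℕ × ι) := E1.image (fun i => (L.lab x i, K.a i)) with hP1
  set Q1 : Finset (ℕ × ι) := E1.image (fun i => (cell K r x i, K.a i)) with hQ1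
  have hQP : Q1.card ≤ P1.card := by
    refine card_image_factor E1 _ _ ?_
    intro i hi j hj h
    rw [Prod.mk.injEq] at h ⊢
    exact ⟨(hlab.leq x hx1 hxm i (hE1 hi) j (hE1 hj) h.1).1, h.2⟩
  have hPQ : P1.card ≤ Q1.card := by
    refine card_image_factor E1 _ _ ?_
    intro i hi j hj h
    rw [Prod.mk.injEq] at h ⊢
    exact ⟨hlab.line x hx1 hxm i (hE1 hi) j (hE1 hj) h.2 h.1, h.2⟩
  have hE1N : E1 ⊆ range K.N := fun i hi => mem_range.2 (hlab.lt i (hE1 hi))
  have hQ2 : (Q1.card : ℝ) ≤ C2 * Fintype.card ι * (r : ℝ) ^ x := by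
    have := (hT2' ι K hBig.std.inj hBig.gp r x (by omega)).2.2.2.1 E1 hE1N false
    exact this.1
  have hP2 : (P1.card : ℝ) ≤ C2 * Fintype.card ι * (r : ℝ) ^ x := by
    have : (P1.card : ℝ) ≤ Q1.card := by exact_mod_cast hPQ
    linarith
  have hPlow : (Fintype.card ι : ℝ) * (r : ℝ) ^ x < D ^ c1 * (P1.card : ℝ) := by
    have h1 : (Fintype.card ι : ℝ) * (r : ℝ) ^ x < D ^ c1 * (Q1.card : ℝ) := by
      by_contra hle
      push Not at hle
      have := hF ι K r m H D (hmono _ (by omega)) x hxm E1 (fun i hi => hone.hyg i (hE1 hi)) hle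
      linarith
    have h2 : (Q1.card : ℝ) ≤ P1.card := by exact_mod_cast hQP
    have h3 : (0 : ℝ) ≤ D ^ c1 := by positivity
    nlinarith
  have hsnd : P1.image Prod.snd = E1.image K.a := by
    rw [hP1, image_image]
    rfl
  -- apply the count of triples
  set j := 4 * y + kb e kp l with hj
  have hkb : kb e kp l = 2 * k8 e kp l + kN kp l + 8 := rfl
  have hkt : kt e kp l = kb e kp l + 4 * k6 kp l + kp := rfl
  have hmain := hTrip ι P1 (κ y) (fun p q => rd K r m H s0 e0 j p ≤ 10 * dist0 K s0 e0 q p)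
    ((Fintype.card ι : ℝ) / (r : ℝ) ^ (2 * x + 2 * y + k8 e kp l + 4))
    (2 * H * (r : ℝ) ^ (x - z))
    ((Fintype.card ι : ℝ) * (r : ℝ) ^ (k6 kp l + 1) / (r : ℝ) ^ (4 * y))
    (D * (r : ℝ) ^ (3 * x + 2 * y + k8 e kp l)) (by positivity) (by positivity)
    ?_ ?_ ?_ ?_
  · have hsc : ((P1.image Prod.snd).card : ℝ) ≤ Fintype.card ι := by
      exact_mod_cast card_le_univ _
    refine num (n := (Fintype.card ι : ℝ)) (R := (r : ℝ)) (D := D) (H := H) (C2 := C2)
      (P := P1.card) (A := (Fintype.card ι : ℝ) / (r : ℝ) ^ (2 * x + 2 * y + k8 e kp l + 4))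
      (M := (Fintype.card ι : ℝ) * (r : ℝ) ^ (k6 kp l + 1) / (r : ℝ) ^ (4 * y))
      (c := 2 * c1 + c2 + 10) (c1 := c1) (c2 := c2) (x := x) (y := y) (z := z)
      (k8 := k8 e kp l) (k6 := k6 kp l) (by exact_mod_cast hn0) hrR hD2 hH0 hBig.HD
      (by linarith) ?_ hPlow hP2 (by positivity) rfl ?_ ?_ rfl (by omega) hzx hyx (by omega)
      hDr (hmain.trans ?_)
    · exact hc2.le.trans (pow_le_pow_left₀ (by norm_num) hD2 _)
    · field_simp
    · field_simp
    · have h1 : (0 : ℝ) ≤ (Fintype.card ι : ℝ) * (r : ℝ) ^ (k6 kp l + 1) / (r : ℝ) ^ (4 * y) := by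
        positivity
      have h2 : (0 : ℝ) ≤ 2 * H * (r : ℝ) ^ (x - z) := by positivity
      gcongr
  · -- number of units
    rw [hP1, image_image]
    have h1 : ((E1.image (fun i => (L.lab x i, κ y (K.a i)))).card : ℝ) ≤
        D * ((E1.image (fun i => (cell K r x i, κ y (K.a i)))).card : ℝ) := by
      refine card_image_mul E1 _ _ D ?_
      intro w hw
      refine le_trans ?_ (hlab.few x hx1 hxm w.1)
      have : ((E1.filter (fun i => (cell K r x i, κ y (K.a i)) = w)).image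
          (fun i => (L.lab x i, κ y (K.a i)))).card ≤
          ((E.filter (fun i => cell K r x i = w.1)).image (L.lab x)).card := by
        refine card_le_card_of_injOn Prod.fst ?_ ?_
        · intro u hu
          obtain ⟨i, hi, rfl⟩ := mem_image.1 (mem_coe.1 hu)
          rw [mem_filter] at hi
          refine mem_coe.2 (mem_image.2 ⟨i, mem_filter.2 ⟨hE1 hi.1, ?_⟩, rfl⟩)
          rw [← hi.2]
        · intro u hu u' hu' he
          obtain ⟨i, hi, rfl⟩ := mem_image.1 (mem_coe.1 hu)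
          obtain ⟨i', hi', rfl⟩ := mem_image.1 (mem_coe.1 hu')
          rw [mem_filter] at hi hi'
          have h3 : κ y (K.a i) = κ y (K.a i') := by
            have a1 := congrArg Prod.snd hi.2
            have a2 := congrArg Prod.snd hi'.2
            simp only at a1 a2
            rw [a1, a2]
          rw [Prod.mk.injEq]
          exact ⟨he, h3⟩
      exact_mod_cast this
    have h2 : ((E1.image (fun i => (cell K r x i, κ y (K.a i)))).card : ℝ) ≤
        (r : ℝ) ^ (3 * x + 2 * y + k8 e kp l) := by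
      have h3 := hFlw.flux x hx y hy1 hyx hx2y hxt
      have h4 := card_le_card (image_subset_image (f := fun i => (cell K r x i, κ y (K.a i))) hE1)
      exact_mod_cast h4.trans h3
    refine le_trans (le_of_eq ?_) (h1.trans (by gcongr))
    rfl
  · -- near lines
    intro u hu
    obtain ⟨i, hi, rfl⟩ := mem_image.1 (hP1 ▸ hu)
    have hnear := hFlw.near x hx1 hxm j (by omega) (by omega) i (hE1 hi)
    have hle : (P1.filter (fun z' => z'.1 = L.lab x i ∧ κ y z'.2 = κ y (K.a i) ∧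
        ¬ (rd K r m H s0 e0 j (K.a i) ≤ 10 * dist0 K s0 e0 z'.2 (K.a i)))).card ≤
        near K r m H s0 e0 L E x j i := by
      unfold near
      refine card_le_card_of_injOn Prod.snd ?_ ?_
      · intro v hv
        rw [mem_coe, mem_filter] at hv
        obtain ⟨hv1, hv2, -, hv4⟩ := hv
        obtain ⟨i', hi', rfl⟩ := mem_image.1 (hP1 ▸ hv1)
        push Not at hv4
        rw [mem_coe, mem_filter]
        exact ⟨mem_image_of_mem _ (hE1 hi'), ⟨i', hE1 hi', rfl, hv2⟩, hv4⟩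
      · intro v hv v' hv' he
        rw [mem_coe, mem_filter] at hv hv'
        exact Prod.ext (hv.2.1.trans hv'.2.1.symm) he
    rw [le_div_iff₀ (by positivity)]
    have h1 : (near K r m H s0 e0 L E x j i * r ^ (2 * x + 2 * y + k8 e kp l + 4)) ^ 2 ≤
        Fintype.card ι ^ 2 := by
      have h2 : 0 < r ^ kN kp l := by positivity
      refine Nat.le_of_mul_le_mul_right ?_ h2
      refine le_trans (le_of_eq ?_) hnear
      have : 4 * x + j = (2 * x + 2 * y + k8 e kp l + 4) * 2 + kN kp l := by omega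
      rw [this, pow_add r ((2 * x + 2 * y + k8 e kp l + 4) * 2) (kN kp l), pow_mul, mul_pow,
        mul_assoc]
    have h3 := (Nat.pow_le_pow_iff_left (by norm_num)).1 h1
    have h4 : ((near K r m H s0 e0 L E x j i : ℕ) : ℝ) *
        (r : ℝ) ^ (2 * x + 2 * y + k8 e kp l + 4) ≤ Fintype.card ι := by exact_mod_cast h3
    refine le_trans ?_ h4
    have h5 : ((P1.filter (fun z' => z'.1 = L.lab x i ∧ κ y z'.2 = κ y (K.a i) ∧
        ¬ (rd K r m H s0 e0 j (K.a i) ≤ 10 * dist0 K s0 e0 z'.2 (K.a i)))).card : ℝ) ≤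
        near K r m H s0 e0 L E x j i := by exact_mod_cast hle
    gcongr
  · -- far lines
    intro p q hfar
    set F := E1.filter (fun i => K.a i = p ∧ ∃ i' ∈ E1, K.a i' = q ∧ L.lab x i' = L.lab x i)
      with hFdef
    have hd : dist0 K s0 e0 q p = dist0 K s0 e0 p q := dist0_comm K s0 e0 q p
    rcases F.eq_empty_or_nonempty with hemp | ⟨i0, hi0⟩
    · have : P1.filter (fun u => u.2 = p ∧ (u.1, q) ∈ P1) = ∅ := by
        rw [filter_eq_empty_iff]
        rintro u hu ⟨h1, h2⟩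
        obtain ⟨i, hi, rfl⟩ := mem_image.1 (hP1 ▸ hu)
        obtain ⟨i', hi', h3⟩ := mem_image.1 (hP1 ▸ h2)
        rw [Prod.mk.injEq] at h3
        have : i ∈ F := mem_filter.2 ⟨hi, h1, i', hi', h3.2, h3.1⟩
        rw [hemp] at this
        exact absurd this (notMem_empty _)
      rw [this, card_empty, Nat.cast_zero]
      positivity
    · have hrad0 : ∀ i ∈ F, 0 ≤ rd K r m H s0 e0 (4 * x - 1) p := fun i hi => rad_nonneg _ _ _ _ _ _ _
      have hfarE := hFar ι K r m H D s0 e0 L E hlab hone.hyg (by omega) hH0 x z hz1 hzx hxm p q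
        (D * rd K r m H s0 e0 (4 * x - 1) p) (rd K r m H s0 e0 j p / 10)
        (mul_nonneg (by linarith) (hrad0 i0 hi0))
        (by rw [hd] at hfar; linarith) F (fun i hi => hE1 (mem_filter.1 hi).1) ?_
      · refine le_trans ?_ hfarE
        have : (P1.filter (fun u => u.2 = p ∧ (u.1, q) ∈ P1)).card ≤ (F.image (L.lab x)).card := by
          refine card_le_card_of_injOn Prod.fst ?_ ?_
          · intro u hu
            rw [mem_coe, mem_filter] at hu
            obtain ⟨h0, h1, h2⟩ := hu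
            obtain ⟨i, hi, rfl⟩ := mem_image.1 (hP1 ▸ h0)
            obtain ⟨i', hi', h3⟩ := mem_image.1 (hP1 ▸ h2)
            rw [Prod.mk.injEq] at h3
            exact mem_coe.2 (mem_image_of_mem _ (mem_filter.2 ⟨hi, h1, i', hi', h3.2, h3.1⟩))
          · intro u hu v hv he
            rw [mem_coe, mem_filter] at hu hv
            exact Prod.ext he (hu.2.1.trans hv.2.1.symm)
        exact_mod_cast this
      · intro i hi
        have hi' := mem_filter.1 hi
        obtain ⟨hiE1, hip, i', hi'E, hi'q, hlabeq⟩ := hi'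
        have hup := hone.up x hxS.1 hxS.2 i (hE1 hiE1)
        have hv := hviol i hiE1
        rw [hip] at hup hv
        have hD0 : (0 : ℝ) ≤ D := by linarith
        refine ⟨hip, ⟨i', hE1 hi'E, hi'q, hlabeq⟩, mul_le_mul_of_nonneg_left hup hD0, ?_⟩
        have h40 : 40 * D ≤ r := by
          have h1 : D ^ 7 ≤ D ^ (2 * c1 + c2 + 10) := pow_le_pow_right₀ (by linarith) (by omega)
          have h2 : (2 : ℝ) ^ 6 ≤ D ^ 6 := pow_le_pow_left₀ (by norm_num) hD2 6
          have h3 : D ^ 7 = D ^ 6 * D := by ring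
          nlinarith
        have h5 : 40 * D * (rd K r m H s0 e0 (4 * x - 1) p * (e0 - s0)) ≤
            r * (rd K r m H s0 e0 (4 * x - 1) p * (e0 - s0)) := by
          refine mul_le_mul_of_nonneg_right h40 (mul_nonneg (hrad0 i hi) (by linarith))
        nlinarith
  · -- lines of one class
    rw [hsnd]
    intro p hp
    obtain ⟨i, hi, rfl⟩ := mem_image.1 hp
    have h1 := hB ι K r m H D s0 e0 L κ e X2 X4 S E (hmono _ (by omega)) hFlw y hy1 (by omega) i
      (hE1 hi)
    rw [le_div_iff₀ (by positivity)]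
    refine le_trans ?_ h1
    have h2 : (((E1.image K.a).filter (fun q => κ y q = κ y (K.a i))).card : ℝ) ≤
        (((E.image K.a).filter (fun q => κ y q = κ y (K.a i))).card : ℝ) := by
      exact_mod_cast card_le_card (filter_subset_filter _ (image_subset_image hE1))
    gcongr

end Pool.Agent.Work.MP_e17eac_co.BB
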