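import Pool.Agent.Work.MP_e17eac_co.Bd.B22
import Pool.Agent.Work.MP_e17eac_co.BB.P5_HU
import Pool.Agent.Work.MP_e17eac_co.Bd.B37
import Pool.Agent.Work.MP_e17eac_co.BB.P5_HL
import Pool.Agent.Work.MP_e17eac_co.BB.P5_B5
import Pool.Agent.Work.MP_e17eac_co.Bd.B35
import Pool.Agent.Work.MP_e17eac_co.Bd.B21
import Pool.Agent.Work.MP_e17eac_co.Bd.B31
import Pool.Agent.Work.MP_e17eac_co.Bd.B33
import Pool.Agent.Work.MP_e17eac_co.Bd.B29
import Pool.Agent.Work.MP_e17eac_co.Bd.B25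

/-!
# Arbitrary sets, blueprint parts B-1 and B-5: assembly without hypotheses
-/

namespace Pool.Agent.Work.MP_e17eac_co.BB

open Pool.Agent.Work.MP_e17eac_co.DH

theorem tCellB : B1.StCell := B1.I_CELL

theorem tCellTokB : B1.StCellTok := B1.I_CTOK tCellB

theorem tT2cB : B1.StT2c := B1.I_T2C tCellB tCellTokB NF.t2I NF.t2J

theorem tFPB : B1.StFP := B1.I_FP tCellB tCellTokB MX.tDeyV

theorem tFLB : B1.StFL := B1.I_FL MX.tDeyV

theorem tCrlB : StCrl := I_CRL (I_PL I_PLANAR I_LEQ)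

theorem tCinjB : StCinj := I_CINJ MX.tTok
  (I_TOUCH I_POS MX.tTok (I_MONO MX.tTok) (I_PATH MX.tTok (I_MONO MX.tTok)) I_MIR I_LEQ) I_LEQ

theorem tX0B : B1.StX0 := B1.I_X0 tCrlB

theorem tX1B : B1.StX1 := B1.I_X1 tCinjB

theorem tXB : B1.StX := B1.I_X tCellTokB tX0B tX1B

theorem tP2B : B1.StP2 := B1.I_P2 tCellB tT2cB tXB

theorem tAVB : B1.StAV := B1.I_AV

theorem tDist : StDist := I3_DIST

theorem tRad : StRad := I3_RAD tDist

theorem tOneSub : StOneSub := I_OneSub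

theorem tOneBig : StOneBig := I_OneBig tFLB

theorem t5Few : St5Few := I5_Few tFPB I5_Num

theorem t5Ball : St5Ball := I5_Ball tRad tOneBig I5_Num

theorem t5Far : St5Far := I5_Far I5_Nest tCellB

theorem t5HU : St5HU := I5_HU I5_Trip I5_Num t5Few t5Ball t5Far tT2cB tDist

theorem t5Thick : St5Thick := I5_Thick t5Few I5_Num

theorem t5AVP : St5AVP := I5_AVP tAVB tP2B tT2cB I5_Num

theorem t5HL : St5HL := I5_HL I5_Num (I5_Heavy t5Few tCellB I5_Num) (I5_Light tT2cB) t5AVP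
  (I5_GeoA I5_Nest tCellB tDist) (I5_GeoB I5_Nest) tRad tOneBig

/-- **B-5** without hypotheses. -/
theorem tB5 : StB5 := I5_B5 I5_Num (I5_Inh tOneSub) I5_Nest t5HU t5Thick t5HL tRad tOneBig

end Pool.Agent.Work.MP_e17eac_co.BB
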