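import Pool.Agent.Work.MP_e17eac_co.Bd.B20

/-!
# Arbitrary sets, blueprint part B-3: item LOW
-/

namespace Pool.Agent.Work.MP_e17eac_co.BB

open Finset
open Pool.Agent.Work.MP_e17eac_co.DH
open Pool.Agent.Work.MP_e17eac_co.B1

namespace X3LOW

variable {ι : Type} [Fintype ι] [DecidableEq ι]

/-- The assumptions `Big` for a smaller exponent. -/
lemma big_mono (K : KSys ι) (r m : ℕ) (H D : ℝ) (C C' : ℕ) (hC : C' ≤ C)
    (h : Big K r m H D C) : Big K r m H D C' := by
  have hD1 : (1 : ℝ) ≤ D := by linarith [h.D2]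
  have hr1 : (1 : ℝ) ≤ (r : ℝ) := by
    have := h.std.two
    exact_mod_cast (by omega : 1 ≤ r)
  refine ⟨h.std, h.gp, h.HD, h.D2, h.log, h.ub, ?_, ?_⟩
  · exact (pow_le_pow_right₀ hD1 hC).trans h.Dr
  · exact (pow_le_pow_right₀ hr1 (Nat.mul_le_mul_right _ hC)).trans h.rn

/-- A quantile of the function `d` on the finite set `T`. -/
lemma quantile (T : Finset ℕ) (d : ℕ → ℝ) (c N : ℝ) (hN : 0 < N)
    (hT : N ≤ c * (T.card : ℝ)) :
    ∃ i0 ∈ T, N ≤ c * ((T.filter (fun i => d i ≤ d i0)).card : ℝ) ∧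
      c * ((T.filter (fun i => d i < d i0)).card : ℝ) < N := by
  have hne : T.Nonempty := by
    rw [Finset.nonempty_iff_ne_empty]
    rintro rfl
    simp only [card_empty, Nat.cast_zero, mul_zero] at hT
    linarith
  obtain ⟨jm, hjm, hjmax⟩ := T.exists_max_image d hne
  have hG : (T.filter (fun j => N ≤ c * ((T.filter (fun i => d i ≤ d j)).card : ℝ))).Nonempty := by
    refine ⟨jm, mem_filter.2 ⟨hjm, ?_⟩⟩
    rw [filter_true_of_mem hjmax]
    exact hT
  obtain ⟨i0, hi0, hmin⟩ := exists_min_image _ d hG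
  obtain ⟨hi0T, hi0N⟩ := mem_filter.1 hi0
  refine ⟨i0, hi0T, hi0N, ?_⟩
  by_contra hcon
  rw [not_lt] at hcon
  have hne2 : (T.filter (fun i => d i < d i0)).Nonempty := by
    rw [Finset.nonempty_iff_ne_empty]
    intro h
    rw [h] at hcon
    simp only [card_empty, Nat.cast_zero, mul_zero] at hcon
    linarith
  obtain ⟨j1, hj1, hj1max⟩ := exists_max_image _ d hne2
  obtain ⟨hj1T, hj1lt⟩ := mem_filter.1 hj1
  have heq : T.filter (fun i => d i ≤ d j1) = T.filter (fun i => d i < d i0) := by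
    ext i
    simp only [mem_filter]
    constructor
    · rintro ⟨h1, h2⟩
      exact ⟨h1, lt_of_le_of_lt h2 hj1lt⟩
    · rintro ⟨h1, h2⟩
      exact ⟨h1, hj1max i (mem_filter.2 ⟨h1, h2⟩)⟩
  have h3 : d i0 ≤ d j1 := hmin j1 (mem_filter.2 ⟨hj1T, by rw [heq]; exact hcon⟩)
  exact absurd hj1lt (not_lt.2 h3)

/-- Few bad elements: elements with few related elements in their class. -/
lemma bad_card {α : Type} (P Pb : Finset α) (κ : α → ℕ) (R : α → α → Prop)
    [DecidableRel R] (A Q n : ℝ) (hA : 0 ≤ A) (hQ : 0 ≤ Q) (hn : 0 ≤ n) (hsub : Pb ⊆ P)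
    (h1 : ∀ B : ℕ, ((Pb.filter (fun p => κ p = B)).card : ℝ) ^ 2 ≤
      A * ((((Pb.filter (fun p => κ p = B)) ×ˢ (Pb.filter (fun p => κ p = B))).filter
        (fun z => R z.1 z.2)).card : ℝ))
    (h2 : ∀ p ∈ Pb, ((P.filter (fun q => κ q = κ p ∧ R p q)).card : ℝ) * Q ≤ n) :
    (Pb.card : ℝ) * Q ≤ ((P.image κ).card : ℝ) * (A * n) := by
  have hB : ∀ B : ℕ, ((Pb.filter (fun p => κ p = B)).card : ℝ) * Q ≤ A * n := by
    intro B
    set P1 := Pb.filter (fun p => κ p = B) with hP1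
    have hsum : (((P1 ×ˢ P1).filter (fun z => R z.1 z.2)).card : ℝ) =
        ∑ p ∈ P1, ((P1.filter (fun q => R p q)).card : ℝ) := by
      rw [card_filter, sum_product]
      push_cast
      refine sum_congr rfl (fun p _ => ?_)
      rw [card_filter]
      push_cast
      rfl
    have hle : (((P1 ×ˢ P1).filter (fun z => R z.1 z.2)).card : ℝ) * Q ≤ (P1.card : ℝ) * n := by
      rw [hsum, sum_mul]
      calc ∑ p ∈ P1, ((P1.filter (fun q => R p q)).card : ℝ) * Q ≤ ∑ p ∈ P1, n := by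
            refine sum_le_sum (fun p hp => ?_)
            obtain ⟨hpb, hpB⟩ := mem_filter.1 hp
            refine le_trans (mul_le_mul_of_nonneg_right ?_ hQ) (h2 p hpb)
            have hss : P1.filter (fun q => R p q) ⊆
                P.filter (fun q => κ q = κ p ∧ R p q) := by
              intro q hq
              obtain ⟨hq1, hq2⟩ := mem_filter.1 hq
              obtain ⟨hq3, hq4⟩ := mem_filter.1 hq1
              exact mem_filter.2 ⟨hsub hq3, hq4.trans hpB.symm, hq2⟩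
            exact_mod_cast card_le_card hss
        _ = (P1.card : ℝ) * n := by rw [sum_const, nsmul_eq_mul]
    have h3 : ((P1.card : ℝ) ^ 2) * Q ≤ A * ((P1.card : ℝ) * n) := by
      calc ((P1.card : ℝ) ^ 2) * Q ≤
            (A * (((P1 ×ˢ P1).filter (fun z => R z.1 z.2)).card : ℝ)) * Q :=
            mul_le_mul_of_nonneg_right (h1 B) hQ
        _ = A * ((((P1 ×ˢ P1).filter (fun z => R z.1 z.2)).card : ℝ) * Q) := by ring
        _ ≤ A * ((P1.card : ℝ) * n) := mul_le_mul_of_nonneg_left hle hA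
    rcases Nat.eq_zero_or_pos P1.card with h0 | h0
    · rw [h0]
      simp only [Nat.cast_zero, zero_mul]
      positivity
    · have h0' : (0 : ℝ) < (P1.card : ℝ) := by exact_mod_cast h0
      have h4 : (P1.card : ℝ) * ((P1.card : ℝ) * Q) ≤ (P1.card : ℝ) * (A * n) := by
        calc (P1.card : ℝ) * ((P1.card : ℝ) * Q) = ((P1.card : ℝ) ^ 2) * Q := by ring
          _ ≤ A * ((P1.card : ℝ) * n) := h3
          _ = (P1.card : ℝ) * (A * n) := by ring
      exact le_of_mul_le_mul_left h4 h0'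
  have hcard : Pb.card = ∑ B ∈ P.image κ, (Pb.filter (fun p => κ p = B)).card :=
    card_eq_sum_card_fiberwise (fun p hp => mem_coe.2 (mem_image_of_mem κ (hsub hp)))
  rw [hcard]
  push_cast
  rw [sum_mul]
  calc ∑ B ∈ P.image κ, ((Pb.filter (fun p => κ p = B)).card : ℝ) * Q
      ≤ ∑ B ∈ P.image κ, A * n := sum_le_sum (fun B _ => hB B)
    _ = ((P.image κ).card : ℝ) * (A * n) := by rw [sum_const, nsmul_eq_mul]

open Classical in
theorem main (hRad : StRad) (hPS : StPSbig) (hCount : StCount)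
    (hShare : StShare) (hTS2 : StTS2) (hTS3 : StTS3) (hMono : StTSmono) : StLow := by
  intro e
  obtain ⟨C0, hC0⟩ := hCount
  refine ⟨C0 + 5, 3, ?_⟩
  intro ι _ _ K r m H D s0 s1 s2 e0 L κ X0 X1 P E hBig hTwo x hx0 hx1
  have hD2 : (2 : ℝ) ≤ D := hBig.D2
  have hD1 : (1 : ℝ) ≤ D := by linarith
  have hD0 : (0 : ℝ) ≤ D := by linarith
  have hr2 : 2 ≤ r := hBig.std.two
  have hr1 : 1 ≤ r := by omega
  have hr1' : (1 : ℝ) ≤ (r : ℝ) := by exact_mod_cast hr1
  have hr0' : (0 : ℝ) < (r : ℝ) := by linarith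
  have hx : 1 ≤ x := hTwo.lev.1.trans hx0
  have hxm : x ≤ m := hx1.trans hTwo.lev.2
  have hse : s0 < e0 := (hTwo.lab false).base
  have hDC : D ^ (C0 + 5) ≤ r := hBig.Dr
  have hD5 : D ^ 5 ≤ r := (pow_le_pow_right₀ hD1 (by omega)).trans hDC
  have hDr : D < r := by
    have : D < D ^ 5 := by
      calc D = D ^ 1 := (pow_one D).symm
        _ < D ^ 5 := pow_lt_pow_right₀ (by linarith) (by norm_num)
    linarith
  have h4D : 4 * D ^ 2 ≤ r := by
    have h0 : (4 : ℝ) ≤ D ^ 2 := by nlinarith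
    have h1 : 4 * D ^ 2 ≤ D ^ 2 * D ^ 2 := mul_le_mul_of_nonneg_right h0 (by positivity)
    have h2 : D ^ 2 * D ^ 2 ≤ D ^ 5 := by
      rw [← pow_add]
      exact pow_le_pow_right₀ hD1 (by norm_num)
    linarith
  have hcard : 0 < Fintype.card ι := Fintype.card_pos_iff.2 ⟨K.a 0⟩
  have hcard' : (0 : ℝ) < (Fintype.card ι : ℝ) := by exact_mod_cast hcard
  have hN : (0 : ℝ) < (K.N : ℝ) := by
    have h1 : 0 < r ^ (4 * m) := Nat.pos_of_ne_zero (by positivity)
    exact_mod_cast h1.trans_le hBig.std.pow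
  have hPSb := hPS ι K r m H D P E hcard hDr hr1 hTwo.ts (4 * x + (e + 2)) (by omega)
  obtain ⟨-, hR1, -, -, -, -⟩ := hRad ι K (PS K r m H) s0 e0 r hse hr1 (4 * x + (e + 2)) hPSb
  -- quantiles
  have hq : ∀ (s : Bool) (p : ι), ∃ v : ℝ, p ∈ P →
      (∃ i0 ∈ E s, K.a i0 = p ∧ v = L.del x i0) ∧
      (K.N : ℝ) ≤ D ^ 3 * Fintype.card ι *
        ((((E s).filter (fun i => K.a i = p)).filter (fun i => L.del x i ≤ v)).card : ℝ) ∧
      D ^ 3 * Fintype.card ι *
        ((((E s).filter (fun i => K.a i = p)).filter (fun i => L.del x i < v)).card : ℝ) <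
        (K.N : ℝ) := by
    intro s p
    by_cases hp : p ∈ P
    · have hT : (K.N : ℝ) ≤ D ^ 3 * Fintype.card ι *
          (((E s).filter (fun i => K.a i = p)).card : ℝ) := by
        refine (hTwo.ts.deg s p hp).trans ?_
        have h1 : D ≤ D ^ 3 := by
          calc D = D ^ 1 := (pow_one D).symm
            _ ≤ D ^ 3 := pow_le_pow_right₀ hD1 (by norm_num)
        have h2 : D * (Fintype.card ι : ℝ) ≤ D ^ 3 * (Fintype.card ι : ℝ) :=
          mul_le_mul_of_nonneg_right h1 hcard'.le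
        exact mul_le_mul_of_nonneg_right h2 (Nat.cast_nonneg _)
      obtain ⟨i0, hi0, h1, h2⟩ := quantile ((E s).filter (fun i => K.a i = p)) (L.del x)
        (D ^ 3 * Fintype.card ι) K.N hN hT
      obtain ⟨h3, h4⟩ := mem_filter.1 hi0
      exact ⟨L.del x i0, fun _ => ⟨⟨i0, h3, h4, rfl⟩, h1, h2⟩⟩
    · exact ⟨0, fun h => absurd h hp⟩
  choose v hv using hq
  -- the sharing relation
  set F : Bool → Finset ℕ := fun s => (E s).filter (fun i => L.del x i ≤ v s (K.a i)) with hF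
  have hFsub : ∀ s, F s ⊆ E s := fun s => filter_subset _ _
  set R : ι → ι → Prop := fun p q => ∀ s : Bool,
    (labs K L (F s) x p ∩ labs K L (F s) x q).Nonempty with hRdef
  set Q : ℝ := (r : ℝ) ^ (4 * x + (e + 2)) with hQdef
  have hQ0 : 0 < Q := by positivity
  set Pb : Finset ι := P.filter (fun p =>
    ((P.filter (fun q => κ x q = κ x p ∧ R p q)).card : ℝ) * Q ≤ Fintype.card ι) with hPb
  have hPbsub : Pb ⊆ P := filter_subset _ _
  have hbadc : (Pb.card : ℝ) * Q ≤ ((P.image (κ x)).card : ℝ) * (D ^ C0 * Fintype.card ι) := by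
    refine bad_card P Pb (κ x) R (D ^ C0) Q (Fintype.card ι) (by positivity) hQ0.le
      hcard'.le hPbsub ?_ ?_
    · intro B
      have h := hC0 ι K r m H D s0 s1 s2 e0 L κ e X0 X1 P E
        (big_mono K r m H D (C0 + 5) C0 (by omega) hBig) hTwo x hx0 hx1 F hFsub B
        (Pb.filter (fun p => κ x p = B)) ((filter_subset _ _).trans hPbsub) ?_
      · convert h using 4
      · intro p hp
        obtain ⟨hp1, hp2⟩ := mem_filter.1 hp
        refine ⟨hp2, fun s => ?_⟩
        obtain ⟨-, h1, -⟩ := hv s p (hPbsub hp1)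
        have h2 : ((E s).filter (fun i => K.a i = p)).filter (fun i => L.del x i ≤ v s p) =
            (F s).filter (fun i => K.a i = p) := by
          ext i
          simp only [hF, mem_filter]
          constructor
          · rintro ⟨⟨h3, h4⟩, h5⟩
            exact ⟨⟨h3, by rw [h4]; exact h5⟩, h4⟩
          · rintro ⟨⟨h3, h5⟩, h4⟩
            exact ⟨⟨h3, h4⟩, by rw [← h4]; exact h5⟩
        rw [h2] at h1
        refine h1.trans ?_
        have h3 : D ^ 3 ≤ D ^ 4 := pow_le_pow_right₀ hD1 (by norm_num)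
        exact mul_le_mul_of_nonneg_right (mul_le_mul_of_nonneg_right h3 hcard'.le)
          (Nat.cast_nonneg _)
    · intro p hp
      exact (mem_filter.1 hp).2
  have hbeta : ((P.image (κ x)).card : ℝ) ≤ (r : ℝ) ^ (4 * x + e) := by
    exact_mod_cast hTwo.beta x hx0 hx1
  have hhalf : 2 * (Pb.card : ℝ) ≤ (P.card : ℝ) := by
    have hQ2 : Q = (r : ℝ) ^ (4 * x + e) * (r : ℝ) ^ 2 := by
      rw [hQdef, ← pow_add]
      congr 1
    have hre : (0 : ℝ) < (r : ℝ) ^ (4 * x + e) := by positivity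
    have h1 : (r : ℝ) ^ (4 * x + e) * ((Pb.card : ℝ) * (r : ℝ) ^ 2) ≤
        (r : ℝ) ^ (4 * x + e) * (D ^ C0 * Fintype.card ι) := by
      calc (r : ℝ) ^ (4 * x + e) * ((Pb.card : ℝ) * (r : ℝ) ^ 2) = (Pb.card : ℝ) * Q := by
            rw [hQ2]; ring
        _ ≤ ((P.image (κ x)).card : ℝ) * (D ^ C0 * Fintype.card ι) := hbadc
        _ ≤ (r : ℝ) ^ (4 * x + e) * (D ^ C0 * Fintype.card ι) :=
            mul_le_mul_of_nonneg_right hbeta (by positivity)
    have h2 : (Pb.card : ℝ) * (r : ℝ) ^ 2 ≤ D ^ C0 * Fintype.card ι :=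
      le_of_mul_le_mul_left h1 hre
    have h3 : (Fintype.card ι : ℝ) ≤ D * P.card := hTwo.ts.big
    have h4 : D ^ (C0 + 1) * 2 ≤ r := by
      calc D ^ (C0 + 1) * 2 ≤ D ^ (C0 + 1) * D := mul_le_mul_of_nonneg_left hD2 (by positivity)
        _ = D ^ (C0 + 2) := by ring
        _ ≤ D ^ (C0 + 5) := pow_le_pow_right₀ hD1 (by omega)
        _ ≤ r := hDC
    have h5 : D ^ C0 * (Fintype.card ι : ℝ) ≤ D ^ (C0 + 1) * P.card := by
      calc D ^ C0 * (Fintype.card ι : ℝ) ≤ D ^ C0 * (D * P.card) :=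
            mul_le_mul_of_nonneg_left h3 (by positivity)
        _ = D ^ (C0 + 1) * P.card := by ring
    have h6 : (r : ℝ) ≤ (r : ℝ) ^ 2 := by nlinarith
    have h7 : (2 * (Pb.card : ℝ)) * (r : ℝ) ≤ (P.card : ℝ) * (r : ℝ) := by
      calc (2 * (Pb.card : ℝ)) * (r : ℝ) ≤ (2 * (Pb.card : ℝ)) * (r : ℝ) ^ 2 :=
            mul_le_mul_of_nonneg_left h6 (by positivity)
        _ = 2 * ((Pb.card : ℝ) * (r : ℝ) ^ 2) := by ring
        _ ≤ 2 * (D ^ (C0 + 1) * P.card) := by linarith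
        _ = (P.card : ℝ) * (D ^ (C0 + 1) * 2) := by ring
        _ ≤ (P.card : ℝ) * (r : ℝ) := mul_le_mul_of_nonneg_left h4 (Nat.cast_nonneg _)
    exact le_of_mul_le_mul_right h7 hr0'
  -- the two deletions
  set E1 : Bool → Finset ℕ := fun s => (E s).filter (fun i => v s (K.a i) ≤ L.del x i) with hE1
  have hTS_a : TS K r m H (2 * D) P E1 := by
    refine hTS3 ι K r m H D P E E1 hD0 hTwo.ts (fun s => filter_subset _ _) ?_
    intro s p hp
    obtain ⟨-, -, h1⟩ := hv s p hp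
    have h2 : (E s \ E1 s).filter (fun i => K.a i = p) =
        ((E s).filter (fun i => K.a i = p)).filter (fun i => L.del x i < v s p) := by
      ext i
      simp only [hE1, mem_filter, mem_sdiff, not_and, not_le]
      constructor
      · rintro ⟨⟨h3, h4⟩, h5⟩
        exact ⟨⟨h3, h5⟩, by rw [← h5]; exact h4 h3⟩
      · rintro ⟨⟨h3, h5⟩, h4⟩
        exact ⟨⟨h3, fun _ => by rw [h5]; exact h4⟩, h5⟩
    rw [h2]
    refine le_trans ?_ h1.le
    have h3 : 2 * D ≤ D ^ 3 := by nlinarith [mul_nonneg hD0 hD0]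
    exact mul_le_mul_of_nonneg_right (mul_le_mul_of_nonneg_right h3 hcard'.le)
      (Nat.cast_nonneg _)
  have hP'sub : P \ Pb ⊆ P := sdiff_subset
  have hP'card : (P.card : ℝ) ≤ 2 * ((P \ Pb).card : ℝ) := by
    have h1 : ((P \ Pb).card : ℝ) = (P.card : ℝ) - (Pb.card : ℝ) := by
      rw [card_sdiff_of_subset hPbsub, Nat.cast_sub (card_le_card hPbsub)]
    rw [h1]
    linarith
  have hTS_b := hTS2 ι K r m H (2 * D) 2 P (P \ Pb) E1 (by linarith) (by norm_num) hTS_a
    hP'sub hP'card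
  refine ⟨P \ Pb, fun s => (E1 s).filter (fun i => K.a i ∈ P \ Pb), ⟨hP'sub, fun s =>
    (filter_subset _ _).trans (filter_subset _ _)⟩, ?_, ?_⟩
  · refine hMono ι K r m H (2 * D * 2) (D ^ 3) _ _ ?_ hTS_b
    nlinarith [mul_nonneg hD0 hD0]
  · intro i hi j hj hij
    obtain ⟨hi1, hiP⟩ := mem_filter.1 hi
    obtain ⟨hj1, hjP⟩ := mem_filter.1 hj
    obtain ⟨hi2, hi3⟩ := mem_filter.1 hi1
    obtain ⟨hj2, hj3⟩ := mem_filter.1 hj1
    set p := K.a i with hp
    obtain ⟨hpP, hpb⟩ := mem_sdiff.1 hiP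
    set M : ℝ := max (v false p) (v true p) with hM
    have hM0 : 0 < M := by
      obtain ⟨⟨i0, h1, -, h3⟩, -, -⟩ := hv false p hpP
      have h4 := (hTwo.lab false).pos x hx hxm i0 h1
      rw [← h3] at h4
      exact h4.trans_le (le_max_left _ _)
    have hMle : M ≤ max (L.del x i) (L.del x j) := by
      refine max_le_max hi3 ?_
      rw [hij]
      exact hj3
    have hmany : (Fintype.card ι : ℝ) <
        ((P.filter (fun q => κ x q = κ x p ∧ R p q)).card : ℝ) * Q := by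
      by_contra hcon
      rw [not_lt] at hcon
      exact hpb (mem_filter.2 ⟨hpP, hcon⟩)
    have hsub2 : P.filter (fun q => κ x q = κ x p ∧ R p q) ⊆
        (PS K r m H).filter (fun q => dist0 K s0 e0 p q < 4 * D ^ 2 * M) := by
      intro q hq
      obtain ⟨hqP, -, hR⟩ := mem_filter.1 hq
      refine mem_filter.2 ⟨hTwo.ts.sub hqP, ?_⟩
      obtain ⟨l, hl⟩ := hR false
      obtain ⟨l', hl'⟩ := hR true
      rw [mem_inter] at hl hl'
      obtain ⟨i1, hi1', hil⟩ := mem_image.1 hl.1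
      obtain ⟨i2, hi2', hil2⟩ := mem_image.1 hl.2
      obtain ⟨j1, hj1', hjl⟩ := mem_image.1 hl'.1
      obtain ⟨j2, hj2', hjl2⟩ := mem_image.1 hl'.2
      obtain ⟨hi1a, hi1b⟩ := mem_filter.1 hi1'
      obtain ⟨hi2a, hi2b⟩ := mem_filter.1 hi2'
      obtain ⟨hj1a, hj1b⟩ := mem_filter.1 hj1'
      obtain ⟨hj2a, hj2b⟩ := mem_filter.1 hj2'
      obtain ⟨hi1c, hi1d⟩ := mem_filter.1 hi1a
      obtain ⟨hj1c, hj1d⟩ := mem_filter.1 hj1a
      rw [hi1b] at hi1d
      rw [hj1b] at hj1d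
      have hd := hShare ι K r m H D s0 s1 s2 e0 L κ e X0 X1 P E hD2 hTwo x hx hxm M i1 i2 j1 j2
        hi1c (hFsub _ hi2a) hj1c (hFsub _ hj2a) (hi1b.trans hj1b.symm) (hi2b.trans hj2b.symm)
        (hil.trans hil2.symm) (hjl.trans hjl2.symm) (hi1d.trans (le_max_left _ _))
        (hj1d.trans (le_max_right _ _))
      rw [hi1b, hi2b] at hd
      have : 0 < D ^ 2 * M := by positivity
      linarith
    have hmass : (Fintype.card ι : ℝ) <
        (mass K (PS K r m H) s0 e0 p (4 * D ^ 2 * M) : ℝ) * (r : ℝ) ^ (4 * x + (e + 2)) := by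
      refine hmany.trans_le (mul_le_mul_of_nonneg_right ?_ hQ0.le)
      exact_mod_cast card_le_card hsub2
    have hrad : rad K (PS K r m H) s0 e0 r (4 * x + (e + 2)) p ≤ 4 * D ^ 2 * M := by
      by_contra hcon
      rw [not_le] at hcon
      have hle : (mass K (PS K r m H) s0 e0 p (4 * D ^ 2 * M) : ℝ) *
          (r : ℝ) ^ (4 * x + (e + 2)) ≤ (Fintype.card ι : ℝ) := by
        exact_mod_cast hR1 p _ hcon.le
      exact absurd hle (not_le.2 hmass)
    refine hrad.trans ?_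
    calc 4 * D ^ 2 * M ≤ r * M := mul_le_mul_of_nonneg_right h4D hM0.le
      _ ≤ r * max (L.del x i) (L.del x j) := mul_le_mul_of_nonneg_left hMle hr0'.le

end X3LOW

set_option linter.unusedVariables false in
theorem I3_LOW (hRad : StRad) (hPS : StPSbig) (hDist : StDist) (hCount : StCount)
    (hShare : StShare) (hTS2 : StTS2) (hTS3 : StTS3) (hMono : StTSmono) : StLow :=
  X3LOW.main hRad hPS hCount hShare hTS2 hTS3 hMono

end Pool.Agent.Work.MP_e17eac_co.BB
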