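import Pool.Agent.Work.MP_e17eac_co.BB.St4
import Pool.Agent.Work.MP_e17eac_co.Bd.B33

/-!
# Arbitrary sets, B-4: NEAR
-/

set_option autoImplicit false

namespace Pool.Agent.Work.MP_e17eac_co.BB

open Finset
open Pool.Agent.Work.MP_e17eac_co.DH
open Pool.Agent.Work.MP_e17eac_co.B1

namespace XNEAR

variable {ι : Type} [Fintype ι] [DecidableEq ι]

/-- The global assumptions are monotone in the exponent. -/
theorem big_mono {K : KSys ι} {r m : ℕ} {H D : ℝ} {C C' : ℕ} (hC : C' ≤ C)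
    (h : Big K r m H D C) : Big K r m H D C' := by
  have hD1 : (1 : ℝ) ≤ D := by linarith [h.D2]
  have hr1 : (1 : ℝ) ≤ r := by exact_mod_cast (by have := h.std.two; omega : 1 ≤ r)
  exact {
    std := h.std
    gp := h.gp
    HD := h.HD
    D2 := h.D2
    log := h.log
    ub := h.ub
    Dr := (pow_le_pow_right₀ hD1 hC).trans h.Dr
    rn := (pow_le_pow_right₀ hr1 (Nat.mul_le_mul_right _ hC)).trans h.rn }

/-- The density in the form `n ^ 4 ≤ (H N) ^ 3`. -/
theorem dense3 {K : KSys ι} {H : ℝ} (h : (Fintype.card ι : ℝ) ^ ((4 : ℝ) / 3) ≤ H * K.N) :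
    (Fintype.card ι : ℝ) ^ 4 ≤ (H * K.N) ^ 3 := by
  have h0 : (0 : ℝ) ≤ (Fintype.card ι : ℝ) := Nat.cast_nonneg _
  have h1 : ((Fintype.card ι : ℝ) ^ ((4 : ℝ) / 3)) ^ 3 = (Fintype.card ι : ℝ) ^ 4 := by
    rw [← Real.rpow_natCast, ← Real.rpow_mul h0]
    norm_num
  rw [← h1]
  exact pow_le_pow_left₀ (Real.rpow_nonneg h0 _) h 3

end XNEAR

open XNEAR in
/-- **NEAR**: few near lines at a label. -/
theorem I_NEAR (hX : StX) (hVit : StVit) : StNear := by
  classical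
  intro m e kp l k
  obtain ⟨C1, hC1⟩ := hVit m e kp l
  refine ⟨C1 + 3 * k + 25, ?_⟩
  intro ι _ _ K r H D s0 e0 L κ X2 X4 S E hB hO x hx1 hxm j hj1 hj2
  obtain ⟨Z, g, E'', hV⟩ := hC1 ι K r H D s0 e0 L κ X2 X4 S E (big_mono (by omega) hB) hO j hj1
    hj2 (E.filter (fun i => Fintype.card ι ^ 2 * r ^ kN kp l <
      near K r m H s0 e0 L E x j i ^ 2 * r ^ (4 * x + j))) (filter_subset _ _)
  set E' : Finset ℕ := E.filter (fun i => Fintype.card ι ^ 2 * r ^ kN kp l <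
      near K r m H s0 e0 L E x j i ^ 2 * r ^ (4 * x + j)) with hE'
  by_contra hcon
  push Not at hcon
  -- constants
  set n : ℝ := (Fintype.card ι : ℝ) with hn
  have hr2 := hB.std.two
  have hrR : (2 : ℝ) ≤ r := by exact_mod_cast hr2
  have hr1 : (1 : ℝ) ≤ r := by linarith
  have hr0 : (0 : ℝ) < r := by linarith
  have hD2 := hB.D2
  have hD1 : (1 : ℝ) ≤ D := by linarith
  have hD0 : (0 : ℝ) < D := by linarith
  have hH1 := hB.std.one
  have hH0 : (0 : ℝ) < H := by linarith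
  have hHD := hB.HD
  have hX2 : 1 ≤ X2 := hO.lev.1
  have hX4 : X4 + 1 ≤ m := hO.lev.2
  have hN1 : (1 : ℝ) ≤ K.N := by
    have h1 := hB.std.pow
    have h2 : 1 ≤ r ^ (4 * m) := Nat.one_le_pow _ _ (by omega)
    exact_mod_cast h2.trans h1
  have hn1 : (1 : ℝ) ≤ n := by
    have h1 := hB.rn
    have h2 : (1 : ℝ) ≤ (r : ℝ) ^ ((C1 + 3 * k + 25) * (m + 1)) := one_le_pow₀ hr1
    linarith
  have hn0 : (0 : ℝ) < n := by linarith
  have hd3 := dense3 hB.std.dense
  have hDr : D ^ (3 * k + 25) ≤ r :=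
    (pow_le_pow_right₀ hD1 (by omega)).trans hB.Dr
  -- n is large
  have hbig : 64 * D ^ (3 * k) * H ^ 3 * (r : ℝ) ^ (3 * (j + k6 kp l)) ≤ n := by
    have h1 : (64 : ℝ) ≤ D ^ 6 := by
      calc (64 : ℝ) = 2 ^ 6 := by norm_num
        _ ≤ D ^ 6 := pow_le_pow_left₀ (by norm_num) hD2 6
    have h2 : H ^ 3 ≤ D ^ 3 := pow_le_pow_left₀ hH0.le hHD 3
    have h3 : (64 : ℝ) * D ^ (3 * k) * H ^ 3 ≤ r := by
      calc (64 : ℝ) * D ^ (3 * k) * H ^ 3 ≤ D ^ 6 * D ^ (3 * k) * D ^ 3 := by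
            apply mul_le_mul _ h2 (by positivity) (by positivity)
            exact mul_le_mul_of_nonneg_right h1 (by positivity)
        _ = D ^ (3 * k + 9) := by rw [← pow_add, ← pow_add]; congr 1; ring
        _ ≤ D ^ (3 * k + 25) := pow_le_pow_right₀ hD1 (by omega)
        _ ≤ r := hDr
    calc 64 * D ^ (3 * k) * H ^ 3 * (r : ℝ) ^ (3 * (j + k6 kp l))
        ≤ r * (r : ℝ) ^ (3 * (j + k6 kp l)) := mul_le_mul_of_nonneg_right h3 (by positivity)
      _ = (r : ℝ) ^ (3 * (j + k6 kp l) + 1) := by rw [pow_succ]; ring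
      _ ≤ (r : ℝ) ^ ((C1 + 3 * k + 25) * (m + 1)) := by
          apply pow_le_pow_right₀ hr1
          have : 25 * (m + 1) ≤ (C1 + 3 * k + 25) * (m + 1) := Nat.mul_le_mul_right _ (by omega)
          omega
      _ ≤ n := hB.rn
  -- N is large
  have hNbig : 4 * D ^ k * n * (r : ℝ) ^ (j + k6 kp l) ≤ K.N := by
    have h1 : (4 * D ^ k * n * (r : ℝ) ^ (j + k6 kp l) * H) ^ 3 ≤ (H * K.N) ^ 3 := by
      calc (4 * D ^ k * n * (r : ℝ) ^ (j + k6 kp l) * H) ^ 3
          = n ^ 3 * (64 * D ^ (3 * k) * H ^ 3 * (r : ℝ) ^ (3 * (j + k6 kp l))) := by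
            rw [mul_comm 3 k, mul_comm 3 (j + k6 kp l), pow_mul, pow_mul]; ring
        _ ≤ n ^ 3 * n := mul_le_mul_of_nonneg_left hbig (by positivity)
        _ = n ^ 4 := by ring
        _ ≤ _ := hd3
    have h2 : 4 * D ^ k * n * (r : ℝ) ^ (j + k6 kp l) * H ≤ H * K.N :=
      le_of_pow_le_pow_left₀ (by norm_num) (by positivity) h1
    have h3 : H * (4 * D ^ k * n * (r : ℝ) ^ (j + k6 kp l)) ≤ H * K.N := by linarith
    exact le_of_mul_le_mul_left h3 hH0
  -- E'' is large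
  have hfew : ((E' \ E'').card : ℝ) ≤ 2 * n * (r : ℝ) ^ (j + k6 kp l) := by
    have h1 := hV.few
    have h2 := hV.card
    have h3 : (E' \ E'').card ≤ 2 * Fintype.card ι * r ^ (j + k6 kp l) :=
      h1.trans (Nat.mul_le_mul_left _ h2)
    have h4 : (((E' \ E'').card : ℕ) : ℝ) ≤
        ((2 * Fintype.card ι * r ^ (j + k6 kp l) : ℕ) : ℝ) := by exact_mod_cast h3
    push_cast at h4
    exact h4
  have hcardE : (E'.card : ℝ) ≤ E''.card + (E' \ E'').card := by
    have h1 : E'.card ≤ E''.card + (E' \ E'').card := by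
      have := Finset.card_sdiff_add_card E' E''
      have h2 : E'.card ≤ (E' ∪ E'').card := Finset.card_le_card subset_union_left
      omega
    exact_mod_cast h1
  have hE'' : (K.N : ℝ) ≤ 2 * D ^ k * E''.card := by
    have hDk : (0 : ℝ) < D ^ k := by positivity
    have h1 : D ^ k * (E'.card : ℝ) ≤ D ^ k * E''.card +
        D ^ k * (2 * n * (r : ℝ) ^ (j + k6 kp l)) := by
      rw [← mul_add]
      apply mul_le_mul_of_nonneg_left _ hDk.le
      linarith
    nlinarith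
  have h32 : 32 * (n * (r : ℝ) ^ k6 kp l) ≤ E''.card := by
    have hDk : (0 : ℝ) < 2 * D ^ k := by positivity
    have h1 : 4 * D ^ k * n * (r : ℝ) ^ (j + k6 kp l) ≤ 2 * D ^ k * E''.card := hNbig.trans hE''
    have h2 : (16 : ℝ) ≤ (r : ℝ) ^ j := by
      calc (16 : ℝ) = 2 ^ 4 := by norm_num
        _ ≤ (r : ℝ) ^ 4 := pow_le_pow_left₀ (by norm_num) hrR 4
        _ ≤ (r : ℝ) ^ j := pow_le_pow_right₀ hr1 (by omega)
    have h3 : 2 * D ^ k * (32 * (n * (r : ℝ) ^ k6 kp l)) ≤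
        4 * D ^ k * n * (r : ℝ) ^ (j + k6 kp l) := by
      rw [pow_add]
      calc 2 * D ^ k * (32 * (n * (r : ℝ) ^ k6 kp l))
          = (4 * D ^ k * n * (r : ℝ) ^ k6 kp l) * 16 := by ring
        _ ≤ (4 * D ^ k * n * (r : ℝ) ^ k6 kp l) * (r : ℝ) ^ j :=
            mul_le_mul_of_nonneg_left h2 (by positivity)
        _ = _ := by ring
    exact le_of_mul_le_mul_left (h3.trans h1) hDk
  -- the near lines
  set M : ℝ := Real.sqrt (n ^ 2 * (r : ℝ) ^ kN kp l / (r : ℝ) ^ (4 * x + j)) with hM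
  have hM2 : M ^ 2 * (r : ℝ) ^ (4 * x + j) = n ^ 2 * (r : ℝ) ^ kN kp l := by
    rw [hM, Real.sq_sqrt (by positivity)]
    field_simp
  have hsubE : E'' ⊆ E := hV.sub.trans (filter_subset _ _)
  have core := near_core hX K hB.std.inj r m x j (k6 kp l) H hr2 hH1 hxm s0 e0
    (fun p => rd K r m H s0 e0 j p / 10) E E''
    (fun i => (E.image K.a).filter (fun s => (∃ i' ∈ E, K.a i' = s ∧ L.lab x i' = L.lab x i) ∧
      10 * dist0 K s0 e0 s (K.a i) < rd K r m H s0 e0 j (K.a i))) Z g M (Real.sqrt_nonneg _)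
    hsubE hO.hyg (fun i hi => hV.gZ i (hV.sub hi))
    (by
      intro i hi
      have := hV.dist i (hV.sub hi)
      linarith)
    (by
      intro i hi
      have := hV.le i (hV.sub hi)
      linarith)
    (by exact_mod_cast hV.card)
    (by
      intro z hz
      have h1 := hV.box z hz
      have h2 : XNEAR.box K (PS K r m H) s0 e0 z (3 * (rd K r m H s0 e0 j z / 10)) =
          Nb K r m H s0 e0 j 3 z := by
        unfold XNEAR.box Nb
        congr 1
        ext s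
        rw [mul_div_assoc]
      rw [h2]
      exact_mod_cast h1)
    (by
      intro i hi s
      have h1 := hV.inbox i hi
      have h2 : XNEAR.box K (PS K r m H) s0 e0 (g (K.a i)) (3 * (rd K r m H s0 e0 j (g (K.a i)) / 10)) =
          Nb K r m H s0 e0 j 3 (g (K.a i)) := by
        unfold XNEAR.box Nb
        congr 1
        ext s
        rw [mul_div_assoc]
      rw [h2]
      cases s
      · exact h1.1
      · exact h1.2)
    (by
      intro i hi s hs
      simp only [mem_filter] at hs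
      obtain ⟨-, ⟨i', hi', rfl, hl⟩, hdist⟩ := hs
      have hcell := (hO.lab.leq x hx1 hxm i' hi' i (hsubE hi) hl).1
      refine ⟨?_, ?_, by linarith⟩
      · have h1 := (hO.hyg i' hi').ps
        exact h1 false
      · rw [← hcell]
        unfold B1.vis KSys.lines ce
        rw [mem_union]
        left
        rw [mem_image]
        exact ⟨i', mem_filter.2 ⟨mem_range.2 (hO.hyg i' hi').lt, rfl⟩, rfl⟩)
    (by
      intro i hi
      have h1 := hV.sub hi
      rw [hE', mem_filter] at h1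
      have h2 := h1.2
      rw [hM, Real.sqrt_le_left (Nat.cast_nonneg _)]
      rw [div_le_iff₀ (by positivity)]
      have h3 : ((Fintype.card ι ^ 2 * r ^ kN kp l : ℕ) : ℝ) ≤
          ((near K r m H s0 e0 L E x j i ^ 2 * r ^ (4 * x + j) : ℕ) : ℝ) := by
        exact_mod_cast h2.le
      push_cast at h3
      exact h3)
    h32
  -- the contradiction
  rw [hM2] at core
  have hkN : kN kp l = 3 * k6 kp l + 1 := rfl
  rw [hkN] at core
  have c1 : (r : ℝ) * (E''.card : ℝ) ^ 3 ≤ 16384 * H ^ 4 * n ^ 4 := by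
    have hp : (0 : ℝ) < n ^ 2 * (r : ℝ) ^ (3 * k6 kp l) := by positivity
    apply le_of_mul_le_mul_left _ hp
    calc n ^ 2 * (r : ℝ) ^ (3 * k6 kp l) * (r * (E''.card : ℝ) ^ 3)
        = n ^ 2 * (r : ℝ) ^ (3 * k6 kp l + 1) * (E''.card : ℝ) ^ 3 := by rw [pow_succ]; ring
      _ ≤ 16384 * H ^ 4 * n ^ 6 * (r : ℝ) ^ (3 * k6 kp l) := core
      _ = _ := by ring
  have c2 : (K.N : ℝ) ^ 3 ≤ 8 * D ^ (3 * k) * (E''.card : ℝ) ^ 3 := by
    calc (K.N : ℝ) ^ 3 ≤ (2 * D ^ k * E''.card) ^ 3 := pow_le_pow_left₀ (Nat.cast_nonneg _) hE'' 3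
      _ = _ := by rw [mul_comm 3 k, pow_mul]; ring
  have c3 : (r : ℝ) * (K.N : ℝ) ^ 3 ≤ D ^ (3 * k + 24) * (K.N : ℝ) ^ 3 := by
    have e1 : (131072 : ℝ) ≤ D ^ 17 := by
      calc (131072 : ℝ) = 2 ^ 17 := by norm_num
        _ ≤ D ^ 17 := pow_le_pow_left₀ (by norm_num) hD2 17
    have e2 : H ^ 7 ≤ D ^ 7 := pow_le_pow_left₀ hH0.le hHD 7
    calc (r : ℝ) * (K.N : ℝ) ^ 3 ≤ r * (8 * D ^ (3 * k) * (E''.card : ℝ) ^ 3) :=
          mul_le_mul_of_nonneg_left c2 hr0.le
      _ = 8 * D ^ (3 * k) * (r * (E''.card : ℝ) ^ 3) := by ring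
      _ ≤ 8 * D ^ (3 * k) * (16384 * H ^ 4 * n ^ 4) := mul_le_mul_of_nonneg_left c1 (by positivity)
      _ ≤ 8 * D ^ (3 * k) * (16384 * H ^ 4 * (H * K.N) ^ 3) := by
          apply mul_le_mul_of_nonneg_left _ (by positivity)
          exact mul_le_mul_of_nonneg_left hd3 (by positivity)
      _ = 131072 * D ^ (3 * k) * H ^ 7 * (K.N : ℝ) ^ 3 := by ring
      _ ≤ D ^ 17 * D ^ (3 * k) * D ^ 7 * (K.N : ℝ) ^ 3 := by
          apply mul_le_mul_of_nonneg_right _ (by positivity)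
          apply mul_le_mul _ e2 (by positivity) (by positivity)
          exact mul_le_mul_of_nonneg_right e1 (by positivity)
      _ = _ := by
          rw [← pow_add, ← pow_add]
          congr 2
          ring
  have c4 : (r : ℝ) ≤ D ^ (3 * k + 24) := le_of_mul_le_mul_right c3 (by positivity)
  have c5 : D ^ (3 * k + 24) * D ≤ r := by rw [← pow_succ]; exact hDr
  have c6 : (0 : ℝ) < D ^ (3 * k + 24) := by positivity
  nlinarith

end Pool.Agent.Work.MP_e17eac_co.BB
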