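import Pool.Agent.Work.MP_e17eac_co.BB.St4

/-!
# Item FluxTok
-/

set_option autoImplicit false
set_option linter.unusedSectionVars false
set_option linter.unusedVariables false

namespace Pool.Agent.Work.MP_e17eac_co.BB

open Finset
open Pool.Agent.Work.MP_e17eac_co.DH
open Pool.Agent.Work.MP_e17eac_co.B1

namespace XTok

theorem card_pair_le {α β : Type} [DecidableEq α] [DecidableEq β] (E : Finset ℕ) (f : ℕ → α)
    (g : ℕ → β) (M : ℝ)
    (hM : ∀ a ∈ E.image f, (((E.filter (fun i => f i = a)).image g).card : ℝ) ≤ M) :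
    ((E.image (fun i => (f i, g i))).card : ℝ) ≤ (E.image f).card * M := by
  have h1 : E.image (fun i => (f i, g i)) ⊆
      (E.image f).biUnion (fun a => ((E.filter (fun i => f i = a)).image g).image
        (fun b => (a, b))) := by
    intro z hz
    obtain ⟨i, hi, rfl⟩ := mem_image.1 hz
    refine mem_biUnion.2 ⟨f i, mem_image_of_mem _ hi, mem_image.2 ⟨g i, mem_image.2 ⟨i,
      mem_filter.2 ⟨hi, rfl⟩, rfl⟩, rfl⟩⟩
  have h2 : (E.image (fun i => (f i, g i))).card ≤
      ∑ a ∈ E.image f, ((E.filter (fun i => f i = a)).image g).card :=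
    ((card_le_card h1).trans card_biUnion_le).trans
      (sum_le_sum fun a _ => card_image_le)
  calc ((E.image (fun i => (f i, g i))).card : ℝ)
      ≤ ((∑ a ∈ E.image f, ((E.filter (fun i => f i = a)).image g).card : ℕ) : ℝ) := by
        exact_mod_cast h2
    _ = ∑ a ∈ E.image f, (((E.filter (fun i => f i = a)).image g).card : ℝ) := by push_cast; rfl
    _ ≤ ∑ a ∈ E.image f, M := sum_le_sum hM
    _ = (E.image f).card * M := by rw [sum_const, nsmul_eq_mul]

end XTok

open XTok in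
theorem I_FluxTok (hCell : StCell) (hCT : StCellTok) (hT2 : StT2c) (hTC : SK.StTokClasses) :
    StFluxTok := by
  classical
  obtain ⟨C0, hC0, hT2'⟩ := hT2
  obtain ⟨c, hc⟩ : ∃ c : ℕ, C0 ≤ (2 : ℝ) ^ c := by
    obtain ⟨c, hc⟩ := pow_unbounded_of_one_lt C0 (show (1 : ℝ) < 2 by norm_num)
    exact ⟨c, hc.le⟩
  intro m e kp l
  refine ⟨0, c + 4, ?_⟩
  intro ι _ _ K r H D s0 e0 L κ X2 X4 S E hB h y hy1 hy2 s
  have hD2 := hB.D2
  have hD0 : 0 < D := by linarith
  have hD1 : 1 ≤ D := by linarith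
  have hr1 : 1 ≤ r := by have := hB.std.two; omega
  have hrR : (1 : ℝ) ≤ r := by exact_mod_cast hr1
  have hr0 : (0 : ℝ) < r := by linarith
  have hEsub : E ⊆ range K.N := fun i hi => mem_range.2 (h.hyg i hi).lt
  have hym : y ≤ m := by have := h.lev.2; omega
  set n : ℝ := (Fintype.card ι : ℝ) with hn
  have hn0 : 0 ≤ n := Nat.cast_nonneg _
  have hH0 : 0 ≤ H := by have := hB.std.one; linarith
  -- tokens in a cell
  obtain ⟨V, hV⟩ : ∃ V : ℝ, V = D * n / (r : ℝ) ^ (3 * y) := ⟨_, rfl⟩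
  have hV0 : 0 ≤ V := by rw [hV]; positivity
  have hvis : ∀ i ∈ E, ((vis K r y (cell K r y i)).card : ℝ) ≤ V := by
    intro i hi
    have h1 := (h.hyg i hi).crowd y hym
    rw [hV, le_div_iff₀ (by positivity)]
    exact h1.trans (mul_le_mul_of_nonneg_right hB.HD hn0)
  -- pairs (class, cell)
  have hA : ((E.image (fun i => (κ y (K.a i), cell K r y i))).card : ℝ) ≤
      (r : ℝ) ^ (4 * y + e) * (D * (r : ℝ) ^ y) := by
    refine (card_pair_le E (fun i => κ y (K.a i)) (cell K r y) (D * (r : ℝ) ^ y) ?_).trans ?_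
    · intro B _
      exact (h.hash y hy1 hy2).act B
    · refine mul_le_mul_of_nonneg_right ?_ (by positivity)
      have h1 := h.beta y hy1 hy2
      rw [image_image] at h1
      have h2 : ((E.image (fun i => κ y (K.a i))).card : ℝ) ≤ ((r ^ (4 * y + e) : ℕ) : ℝ) := by
        exact_mod_cast h1
      simpa using h2
  have hB2 : ((E.image (fun i => ((κ y (K.a i), cell K r y i), K.tok s i))).card : ℝ) ≤
      (E.image (fun i => (κ y (K.a i), cell K r y i))).card * V := by
    refine card_pair_le E (fun i => (κ y (K.a i), cell K r y i)) (K.tok s) V ?_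
    intro w hw
    obtain ⟨i, hi, rfl⟩ := mem_image.1 hw
    refine le_trans ?_ (hvis i hi)
    have h3 : E.filter (fun j => (κ y (K.a j), cell K r y j) = (κ y (K.a i), cell K r y i)) ⊆
        ce K r y (cell K r y i) := by
      intro j hj
      have hj' := mem_filter.1 hj
      exact mem_filter.2 ⟨hEsub hj'.1, (Prod.ext_iff.1 hj'.2).2⟩
    exact_mod_cast (hCT ι K r y (cell K r y i) hr1 _ h3).2.2 s
  have hpair : ((E.image (fun i => (K.tok s i, κ y (K.a i)))).card : ℝ) ≤
      D ^ 2 * n * (r : ℝ) ^ (2 * y + e) := by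
    have h4 : (E.image (fun i => (K.tok s i, κ y (K.a i)))).card ≤
        (E.image (fun i => ((κ y (K.a i), cell K r y i), K.tok s i))).card := by
      have h5 : E.image (fun i => (K.tok s i, κ y (K.a i))) =
          (E.image (fun i => ((κ y (K.a i), cell K r y i), K.tok s i))).image
            (fun w => (w.2, w.1.1)) := by
        rw [image_image]
        rfl
      rw [h5]
      exact card_image_le
    calc ((E.image (fun i => (K.tok s i, κ y (K.a i)))).card : ℝ)
        ≤ (E.image (fun i => ((κ y (K.a i), cell K r y i), K.tok s i))).card := by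
          exact_mod_cast h4
      _ ≤ (E.image (fun i => (κ y (K.a i), cell K r y i))).card * V := hB2
      _ ≤ (r : ℝ) ^ (4 * y + e) * (D * (r : ℝ) ^ y) * V := mul_le_mul_of_nonneg_right hA hV0
      _ = D ^ 2 * n * (r : ℝ) ^ (2 * y + e) := by
          rw [hV]
          have h6 : (r : ℝ) ^ (4 * y + e) * (r : ℝ) ^ y =
              (r : ℝ) ^ (2 * y + e) * (r : ℝ) ^ (3 * y) := by
            rw [← pow_add, ← pow_add]
            congr 1
            ring
          have h7 : (r : ℝ) ^ (3 * y) ≠ 0 := by positivity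
          field_simp
          linear_combination h6
  refine ⟨?_, ?_⟩
  · refine hpair.trans ?_
    have : D ^ 2 ≤ D ^ (c + 4) := pow_le_pow_right₀ hD1 (by omega)
    have h8 : (0 : ℝ) ≤ n * (r : ℝ) ^ (2 * y + e) := by positivity
    nlinarith
  intro x hx1 hx2
  have hmono : ∀ i ∈ E, ∀ j ∈ E, i ≤ j → cell K r x i ≤ cell K r x j := fun i _ j _ hij =>
    (hCell ι K r x hr1).2.1 i j hij
  have hedge : ∀ i ∈ E, i < K.N ∧ κ y (K.a i) = κ y (K.b i) := fun i hi =>
    ⟨(h.hyg i hi).lt, (h.hash y hy1 hy2).edge i hi⟩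
  have hT := hTC ι ℕ K (κ y) (h.hash y hy1 hy2).key E (cell K r x) hedge hmono
  have hT3 : (E.image (fun i => (cell K r x i, K.tok s i, κ y (K.a i)))).card ≤
      (E.image (fun i => (cell K r x i, K.tok s i))).card +
        2 * (E.image (fun i => (K.tok s i, κ y (K.a i)))).card := by
    cases s
    · exact hT.1
    · exact hT.2
  have h9 := ((hT2' ι K hB.std.inj hB.gp r x hr1).2.2.2.1 E hEsub s).2
  have h10 : (E.image (fun i => (cell K r x i, κ y (K.a i), K.tok s i))).card ≤
      (E.image (fun i => (cell K r x i, K.tok s i, κ y (K.a i)))).card := by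
    have h5 : E.image (fun i => (cell K r x i, κ y (K.a i), K.tok s i)) =
        (E.image (fun i => (cell K r x i, K.tok s i, κ y (K.a i)))).image
          (fun w => (w.1, w.2.2, w.2.1)) := by
      rw [image_image]
      rfl
    rw [h5]
    exact card_image_le
  have h11 : ((E.image (fun i => (cell K r x i, κ y (K.a i), K.tok s i))).card : ℝ) ≤
      ((E.image (fun i => (cell K r x i, K.tok s i))).card : ℝ) +
        2 * ((E.image (fun i => (K.tok s i, κ y (K.a i)))).card : ℝ) := by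
    exact_mod_cast h10.trans hT3
  have h12 : C0 * n * (r : ℝ) ^ x ≤ D ^ c * n * (r : ℝ) ^ (2 * y + e) := by
    have h13 : C0 ≤ D ^ c := hc.trans (pow_le_pow_left₀ (by norm_num) hD2 c)
    have h14 : (r : ℝ) ^ x ≤ (r : ℝ) ^ (2 * y + e) := pow_le_pow_right₀ hrR (by omega)
    have h15 : C0 * n ≤ D ^ c * n := mul_le_mul_of_nonneg_right h13 hn0
    exact mul_le_mul h15 h14 (by positivity) (by positivity)
  have h16 : (0 : ℝ) ≤ n * (r : ℝ) ^ (2 * y + e) := by positivity
  have h17 : D ^ c + 2 * D ^ 2 ≤ D ^ (c + 4) := by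
    have h18 : (1 : ℝ) ≤ D ^ c := one_le_pow₀ hD1
    have h19 : D ^ (c + 4) = D ^ c * D ^ 4 := pow_add _ _ _
    have h20 : D ^ 2 ≤ D ^ c * D ^ 2 := by nlinarith [sq_nonneg D]
    have h21 : (4 : ℝ) ≤ D ^ 2 := by nlinarith
    rw [h19]
    have h22 : D ^ 4 = D ^ 2 * D ^ 2 := by ring
    have h23 : 4 * D ^ 2 ≤ D ^ 4 := by nlinarith
    have h24 : D ^ c * (4 * D ^ 2) ≤ D ^ c * D ^ 4 := mul_le_mul_of_nonneg_left h23 (by positivity)
    have h25 : D ^ c ≤ D ^ c * D ^ 2 := by nlinarith
    nlinarith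
  calc ((E.image (fun i => (cell K r x i, κ y (K.a i), K.tok s i))).card : ℝ)
      ≤ ((E.image (fun i => (cell K r x i, K.tok s i))).card : ℝ) +
        2 * ((E.image (fun i => (K.tok s i, κ y (K.a i)))).card : ℝ) := h11
    _ ≤ C0 * n * (r : ℝ) ^ x + 2 * (D ^ 2 * n * (r : ℝ) ^ (2 * y + e)) := by linarith
    _ ≤ D ^ c * n * (r : ℝ) ^ (2 * y + e) + 2 * (D ^ 2 * n * (r : ℝ) ^ (2 * y + e)) := by
        linarith
    _ = (D ^ c + 2 * D ^ 2) * (n * (r : ℝ) ^ (2 * y + e)) := by ring
    _ ≤ D ^ (c + 4) * (n * (r : ℝ) ^ (2 * y + e)) := mul_le_mul_of_nonneg_right h17 h16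
    _ = _ := by ring

end Pool.Agent.Work.MP_e17eac_co.BB
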