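import Pool.Agent.Work.MP_e17eac_co.Bd.B34
import Pool.Agent.Work.MP_e17eac_co.Bd.B35
import Pool.Agent.Work.MP_e17eac_co.Bd.B37
import Pool.Agent.Work.MP_e17eac_co.Bd.B21
import Pool.Agent.Work.MP_e17eac_co.Bd.B36
import Pool.Agent.Work.MP_e17eac_co.BB.P3_LOW
import Pool.Agent.Work.MP_e17eac_co.BB.P_FluxTok
import Pool.Agent.Work.MP_e17eac_co.BB.P4_NEAR
import Pool.Agent.Work.MP_e17eac_co.B4.P_Vit
import Pool.Agent.Work.MP_e17eac_co.B4.P_Flux
import Pool.Agent.Work.MP_e17eac_co.Bd.B22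
import Pool.Agent.Work.MP_e17eac_co.BB.P5_B5
import Pool.Agent.Work.MP_e17eac_co.BB.P5_HL
import Pool.Agent.Work.MP_e17eac_co.BB.P5_HU
import Pool.Agent.Work.MP_e17eac_co.BB.A_TOP

/-!
# Arbitrary sets: all blocks of team B without hypotheses
-/

set_option autoImplicit false

namespace Pool.Agent.Work.MP_e17eac_co.BB

open Pool.Agent.Work.MP_e17eac_co.DH
open Pool.Agent.Work.MP_e17eac_co.B1
open Pool.Agent.Work.MP_e17eac_co.SK

namespace Fin

/-! ### Block B-3 -/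

theorem tRad : StRad := I3_RAD I3_DIST

theorem tShare : StShare := I3_SHARE I3_TWOPT

theorem tUp3 : StUp := I3_UP tRad I3_PSBIG I3_DIST I_TS1 I_TS2 I_TS3 I_TSmono TFP TP2 I_AV

theorem tLow3 : StLow := I3_LOW tRad I3_PSBIG I3_DIST I3_COUNT tShare I_TS2 I_TS3 I_TSmono

theorem tDiam : StDiam := I3_DIAM tRad I3_PSBIG I3_DIST I3_COUNT tShare I_TS2 I_TSmono

theorem tB3 : StB3 :=
  I3_B3 (I3_TWOF I3_TWOSUB tUp3 tLow3 tDiam) (I3_SIDE I_TS2 I_TSmono I3_TWOSUB) I3_COL I3_TWOSUB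

/-! ### Block B-4 -/

theorem tOneBig : StOneBig := I_OneBig TFL

theorem tGrow : StGrow := I_Grow tRad tOneBig

theorem tVit : StVit := B4.I_Vit tOneBig tGrow

theorem tFluxTok : StFluxTok := I_FluxTok TCell TCellTok TT2c kTokCl

theorem tFlux : StFlux := B4.I_Flux TX0 TX1 tOneBig tGrow tVit tFluxTok

theorem tNear : StNear := I_NEAR TX tVit

theorem tB4 : StB4 := A_B4 I_OneSub tGrow tFlux tNear

/-! ### Block B-5 -/

theorem tFew : St5Few := I5_Few TFP I5_Num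

theorem tBall : St5Ball := I5_Ball tRad tOneBig I5_Num

theorem tHU : St5HU := I5_HU I5_Trip I5_Num tFew tBall (I5_Far I5_Nest TCell) TT2c I3_DIST

theorem tHL : St5HL := I5_HL I5_Num (I5_Heavy tFew TCell I5_Num) (I5_Light TT2c)
  (I5_AVP I_AV TP2 TT2c I5_Num) (I5_GeoA I5_Nest TCell I3_DIST) (I5_GeoB I5_Nest) tRad tOneBig

theorem tB5 : StB5 :=
  I5_B5 I5_Num (I5_Inh I_OneSub) I5_Nest tHU (I5_Thick tFew I5_Num) tHL tRad tOneBig

/-! ### The assembly -/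

theorem tAS2 : StAS2 := A_AS2 AS2.tTwo

theorem tEnd (h6 : StSix) : StEnd := A_END I_OneSub tB4 tB5 h6

theorem tMain (h6 : StSix) : StMain :=
  A_TOP I_OneSub tAS2 SK.kSKM tB3 (tEnd h6) THyg TFL

theorem tK (h6 : StSix) : FINAL.StK := A_K (tMain h6) TFL

end Fin

end Pool.Agent.Work.MP_e17eac_co.BB
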